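import Pool.Agent.Shared.H72Sing.UnivCover

/-!
Spaces with vanishing homotopy groups admit coherent cones on singular simplices.
-/

namespace Pool.Agent.Shared.H72Sing

open Set Topology

section Radial

variable {k : ℕ}

/-- Minus the least coordinate. -/
noncomputable def mu (u : Fin (k + 2) → ℝ) : ℝ := Finset.univ.sup' Finset.univ_nonempty fun i => -u i

theorem neg_le_mu (u : Fin (k + 2) → ℝ) (i : Fin (k + 2)) : -u i ≤ mu u :=
  Finset.le_sup' (fun i => -u i) (Finset.mem_univ i)

theorem exists_eq_mu (u : Fin (k + 2) → ℝ) : ∃ i, mu u = -u i := by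
  obtain ⟨i, -, h⟩ := Finset.exists_mem_eq_sup' Finset.univ_nonempty fun i => -u i
  exact ⟨i, h⟩

theorem mu_eq {u : Fin (k + 2) → ℝ} {c : ℝ} (h : ∀ i, -u i ≤ c) (h' : ∃ i, -u i = c) :
    mu u = c := by
  obtain ⟨i, hi⟩ := exists_eq_mu u
  obtain ⟨j, hj⟩ := h'
  exact le_antisymm (hi ▸ h i) (hj ▸ neg_le_mu u j)

theorem continuous_mu : Continuous (mu : (Fin (k + 2) → ℝ) → ℝ) :=
  Continuous.finset_sup'_apply _ fun i _ => by fun_prop

theorem mu_pos {u : Fin (k + 2) → ℝ} (h : ∑ i, u i = 0) (h' : u ≠ 0) : 0 < mu u := by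
  by_contra h0
  have h1 : ∀ i ∈ Finset.univ, 0 ≤ u i := fun i _ => by linarith [neg_le_mu u i]
  exact h' (funext fun i => (Finset.sum_eq_zero_iff_of_nonneg h1).1 h i (Finset.mem_univ i))

theorem mu_smul {c : ℝ} (hc : 0 < c) (u : Fin (k + 2) → ℝ) : mu (c • u) = c * mu u := by
  refine mu_eq (fun i => ?_) ?_
  · have := mul_le_mul_of_nonneg_left (neg_le_mu u i) hc.le
    simpa using this
  · obtain ⟨i, hi⟩ := exists_eq_mu u
    exact ⟨i, by simp [hi]⟩

/-- Radial projection to the boundary of the simplex. -/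
noncomputable def rad (u : Fin (k + 2) → ℝ) : Fin (k + 2) → ℝ :=
  fun i => (u i + mu u) / ((k + 2) * mu u)

theorem rad_mem {u : Fin (k + 2) → ℝ} (h : ∑ i, u i = 0) (h' : u ≠ 0) :
    rad u ∈ stdSimplex ℝ (Fin (k + 2)) := by
  have := mu_pos h h'
  refine ⟨fun i => div_nonneg (by linarith [neg_le_mu u i]) (by positivity), ?_⟩
  simp only [rad, ← Finset.sum_div, Finset.sum_add_distrib, h, Finset.sum_const, Finset.card_univ,
    Fintype.card_fin, nsmul_eq_mul]
  push_cast
  field_simp
  ring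

theorem rad_smul {c : ℝ} (hc : 0 < c) (u : Fin (k + 2) → ℝ) : rad (c • u) = rad u := by
  funext i
  simp only [rad, mu_smul hc, Pi.smul_apply, smul_eq_mul]
  rw [← mul_add, mul_left_comm, mul_div_mul_left _ _ hc.ne']

theorem exists_rad_eq_zero (u : Fin (k + 2) → ℝ) : ∃ i, rad u i = 0 := by
  obtain ⟨i, hi⟩ := exists_eq_mu u
  exact ⟨i, by simp [rad, hi]⟩

theorem eq_smul_of_rad_eq {u u' : Fin (k + 2) → ℝ} (h : 0 < mu u) (h' : 0 < mu u')
    (e : rad u = rad u') : u' = (mu u' / mu u) • u := by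
  funext i
  have := congrFun e i
  simp only [rad] at this
  rw [div_eq_div_iff (by positivity) (by positivity)] at this
  simp only [Pi.smul_apply, smul_eq_mul]
  field_simp
  have hk : (0 : ℝ) < k + 2 := by positivity
  apply mul_left_cancel₀ hk.ne'
  linarith

theorem rad_sub_bary {x : Fin (k + 2) → ℝ} (hx : ∀ i, 0 ≤ x i) (h0 : ∃ i, x i = 0) :
    rad (fun i => x i - ((k : ℝ) + 2)⁻¹) = x := by
  have : mu (fun i => x i - ((k : ℝ) + 2)⁻¹) = ((k : ℝ) + 2)⁻¹ := by
    refine mu_eq (fun i => by linarith [hx i]) ?_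
    obtain ⟨i, hi⟩ := h0
    exact ⟨i, by simp [hi]⟩
  funext i
  simp only [rad, this]
  field_simp
  ring

/-- A vector with zero sum and prescribed last coordinates. -/
def uvec (τ : ℝ) (v : Fin k → ℝ) : Fin (k + 2) → ℝ := Fin.cons (-(τ + ∑ i, v i)) (Fin.cons τ v)

theorem sum_uvec (τ : ℝ) (v : Fin k → ℝ) : ∑ i, uvec τ v i = 0 := by
  simp [uvec, Fin.sum_univ_succ]

theorem uvec_smul (c τ : ℝ) (v : Fin k → ℝ) : uvec (c * τ) (c • v) = c • uvec τ v := by
  funext i
  refine Fin.cases ?_ (fun i => Fin.cases ?_ (fun i => ?_) i) i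
  · simp [uvec, ← Finset.mul_sum]; ring
  · simp [uvec]
  · simp [uvec]

theorem uvec_inj {τ τ' : ℝ} {v v' : Fin k → ℝ} (h : uvec τ v = uvec τ' v') : τ = τ' ∧ v = v' :=
  ⟨congrFun h 1, funext fun i => congrFun h i.succ.succ⟩

theorem uvec_zero : uvec 0 (0 : Fin k → ℝ) = 0 := by
  simpa using uvec_smul 0 0 (0 : Fin k → ℝ)

theorem eq_uvec {u : Fin (k + 2) → ℝ} (h : ∑ i, u i = 0) :
    u = uvec (u 1) fun i => u i.succ.succ := by
  funext i
  refine Fin.cases ?_ (fun i => Fin.cases ?_ (fun i => ?_) i) i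
  · rw [Fin.sum_univ_succ, Fin.sum_univ_succ] at h
    simp only [uvec, Fin.cons_zero]
    rw [Fin.succ_zero_eq_one] at h
    linarith
  · rfl
  · rfl

/-- Centred coordinates on the cube. -/
def cw (y : Fin k → unitInterval) : Fin k → ℝ := fun i => 2 * y i - 1

theorem norm_cw_le (y : Fin k → unitInterval) : ‖cw y‖ ≤ 1 :=
  (pi_norm_le_iff_of_nonneg zero_le_one).2 fun i => by
    rw [Real.norm_eq_abs, abs_le, cw]
    constructor <;> linarith [(y i).2.1, (y i).2.2]

theorem norm_cw_eq_one_iff (y : Fin k → unitInterval) :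
    ‖cw y‖ = 1 ↔ y ∈ Cube.boundary (Fin k) := by
  constructor
  · intro h
    by_contra h'
    refine h.not_lt ((pi_norm_lt_iff one_pos).2 fun i => ?_)
    have h0 : (y i : ℝ) ≠ 0 := fun e => h' ⟨i, Or.inl (Subtype.ext e)⟩
    have h1 : (y i : ℝ) ≠ 1 := fun e => h' ⟨i, Or.inr (Subtype.ext e)⟩
    have h2 := lt_of_le_of_ne (y i).2.1 h0.symm
    have h3 := lt_of_le_of_ne (y i).2.2 h1
    rw [Real.norm_eq_abs, abs_lt, cw]
    constructor <;> linarith
  · rintro ⟨i, hi⟩
    refine le_antisymm (norm_cw_le y) (le_trans ?_ (norm_le_pi_norm (cw y) i))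
    rcases hi with hi | hi <;> norm_num [cw, hi]

theorem cw_injective : Function.Injective (cw : (Fin k → unitInterval) → _) := fun y y' h =>
  funext fun i => Subtype.ext (by have := congrFun h i; simp only [cw] at this; linarith)

theorem exists_cw_eq {w : Fin k → ℝ} (hw : ‖w‖ ≤ 1) : ∃ y, cw y = w := by
  have h := fun i => abs_le.1 ((norm_le_pi_norm w i).trans hw)
  exact ⟨fun i => ⟨(w i + 1) / 2, by linarith [(h i).1], by linarith [(h i).2]⟩,
    funext fun i => by simp only [cw]; ring⟩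

/-- The direction attached to a point of the cube. -/
noncomputable def eta (y : Fin k → unitInterval) : Fin (k + 2) → ℝ :=
  uvec (1 - 2 * ‖cw y‖) ((1 - ‖cw y‖) • cw y)

theorem eta_ne_zero (y : Fin k → unitInterval) : eta y ≠ 0 := by
  intro h
  obtain ⟨h1, h2⟩ := uvec_inj (h.trans uvec_zero.symm)
  have h3 := congrArg norm h2
  rw [norm_smul, norm_zero, Real.norm_eq_abs, show ‖cw y‖ = 1 / 2 by linarith] at h3
  norm_num at h3

theorem continuous_eta : Continuous (eta : (Fin k → unitInterval) → _) := by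
  have : Continuous (cw : (Fin k → unitInterval) → _) := by unfold cw; fun_prop
  unfold eta uvec
  exact Continuous.finCons (by fun_prop) (Continuous.finCons (by fun_prop) (by fun_prop))

/-- The cube modulo its boundary parametrises the boundary of a simplex. -/
noncomputable def rho (k : ℕ) : C(Fin k → unitInterval, Sx (k + 2)) :=
  ⟨fun y => ⟨rad (eta y), rad_mem (sum_uvec _ _) (eta_ne_zero y)⟩, by
    refine Continuous.subtype_mk (continuous_pi fun i => ?_) _
    have h1 := continuous_eta (k := k)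
    have h2 := (continuous_mu (k := k)).comp h1
    refine Continuous.div (((continuous_apply i).comp h1).add h2) (continuous_const.mul h2)
      fun y => ?_
    have := mu_pos (sum_uvec _ _) (eta_ne_zero y)
    positivity⟩

theorem rho_boundary {y y' : Fin k → unitInterval} (h : y ∈ Cube.boundary (Fin k))
    (h' : y' ∈ Cube.boundary (Fin k)) : rho k y = rho k y' := by
  apply Subtype.ext
  simp only [rho, ContinuousMap.coe_mk, eta, (norm_cw_eq_one_iff _).2 h,
    (norm_cw_eq_one_iff _).2 h', sub_self, zero_smul]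

theorem rho_eq {y y' : Fin k → unitInterval} (h : rho k y = rho k y') :
    y = y' ∨ y ∈ Cube.boundary (Fin k) ∧ y' ∈ Cube.boundary (Fin k) := by
  have hp := mu_pos (sum_uvec _ _) (eta_ne_zero y)
  have hp' := mu_pos (sum_uvec _ _) (eta_ne_zero y')
  have h1 := eq_smul_of_rad_eq hp hp' (congrArg Subtype.val h)
  have hc : 0 < mu (eta y') / mu (eta y) := div_pos hp' hp
  change eta y' = (mu (eta y') / mu (eta y)) • eta y at h1
  generalize mu (eta y') / mu (eta y) = c at h1 hc
  rw [eta, eta, ← uvec_smul] at h1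
  obtain ⟨h2, h3⟩ := uvec_inj h1
  have h4 := congrArg norm h3
  have b1 := norm_cw_le y
  have b2 := norm_cw_le y'
  have b3 := norm_nonneg (cw y)
  have b4 := norm_nonneg (cw y')
  rw [norm_smul, norm_smul, norm_smul, Real.norm_of_nonneg hc.le, Real.norm_of_nonneg (by linarith),
    Real.norm_of_nonneg (by linarith)] at h4
  rw [← norm_cw_eq_one_iff, ← norm_cw_eq_one_iff]
  generalize hr : ‖cw y‖ = r at *
  generalize hr' : ‖cw y'‖ = r' at *
  have h5 : (r' - r) * ((1 - r) * (1 - r') + r * r') = 0 := by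
    linear_combination (1 - 2 * r) * h4 - r * (1 - r) * h2
  rcases mul_eq_zero.1 h5 with h6 | h6
  · obtain rfl : r' = r := by linarith
    by_cases h7 : r' = 1
    · exact Or.inr ⟨h7, h7⟩
    · left
      have hc1 : c = 1 := by
        by_cases h8 : r' = 1 / 2
        · rw [h8] at h4; linarith
        · have : (1 - 2 * r') * (c - 1) = 0 := by linarith
          rcases mul_eq_zero.1 this with h9 | h9
          · exact absurd (by linarith) h8
          · linarith
      rw [hc1, one_smul] at h3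
      exact cw_injective (smul_right_injective _ (sub_ne_zero.2 (Ne.symm h7)) h3).symm
  · exfalso
    have e1 : (1 - r) * (1 - r') = 0 := by nlinarith [mul_nonneg b3 b4, mul_nonneg (sub_nonneg.2 b1) (sub_nonneg.2 b2)]
    have e2 : r * r' = 0 := by linarith
    rcases mul_eq_zero.1 e1 with e3 | e3
    · obtain rfl : r = 1 := by linarith
      obtain rfl : r' = 0 := by linarith
      linarith
    · obtain rfl : r' = 1 := by linarith
      obtain rfl : r = 0 := by linarith
      linarith

theorem exists_rho_eq (x : Sx (k + 3)) (h0 : ∃ i, x.1 i = 0) : ∃ y, rho (k + 1) y = x := by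
  set u : Fin (k + 3) → ℝ := fun i => x.1 i - (((k + 1 : ℕ) : ℝ) + 2)⁻¹ with hu
  have hrad : rad u = x.1 := rad_sub_bary x.2.1 h0
  have hsum : ∑ i, u i = 0 := by
    simp only [hu, Finset.sum_sub_distrib, x.2.2, Finset.sum_const, Finset.card_univ,
      Fintype.card_fin, nsmul_eq_mul]
    push_cast
    field_simp
    ring
  have hne : u ≠ 0 := by
    obtain ⟨i, hi⟩ := h0
    intro h
    have := congrFun h i
    simp only [hu, hi, zero_sub, Pi.zero_apply, neg_eq_zero] at this
    exact (by positivity : (0 : ℝ) < (((k + 1 : ℕ) : ℝ) + 2)⁻¹).ne' this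
  suffices ∃ y, ∃ c : ℝ, 0 < c ∧ eta y = c • u by
    obtain ⟨y, c, hc, h⟩ := this
    exact ⟨y, Subtype.ext (by change rad (eta y) = _; rw [h, rad_smul hc, hrad])⟩
  rw [eq_uvec hsum] at hne ⊢
  generalize u 1 = τ at *
  generalize (fun i : Fin (k + 1) => u i.succ.succ) = v at *
  simp only [← uvec_smul]
  by_cases hv : v = 0
  · subst hv
    have hτ : τ ≠ 0 := by rintro rfl; exact hne uvec_zero
    rcases lt_or_gt_of_ne hτ with h | h
    · refine ⟨0, -τ⁻¹, by simpa using h, ?_⟩
      have : ‖cw (0 : Fin (k + 1) → unitInterval)‖ = 1 :=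
        (norm_cw_eq_one_iff _).2 ⟨0, Or.inl rfl⟩
      rw [eta, this]
      congr 1
      · field_simp; ring
      · simp
    · obtain ⟨y, hy⟩ := exists_cw_eq (w := (0 : Fin (k + 1) → ℝ)) (by simp)
      refine ⟨y, τ⁻¹, by simpa using h, ?_⟩
      rw [eta, hy]
      congr 1
      · field_simp; simp
      · simp
  · have hn : 0 < ‖v‖ := norm_pos_iff.2 hv
    obtain ⟨r, ⟨hr0, hr1⟩, hr⟩ : (0 : ℝ) ∈ (fun r => (1 - 2 * r) * ‖v‖ - τ * (r * (1 - r))) ''
        Ioo (0 : ℝ) 1 := by
      refine intermediate_value_Ioo' zero_le_one (by fun_prop) ⟨?_, ?_⟩ <;> linarith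
    have hw : ‖(r / ‖v‖) • v‖ = r := by
      rw [norm_smul, Real.norm_of_nonneg (by positivity), div_mul_cancel₀ _ hn.ne']
    obtain ⟨y, hy⟩ := exists_cw_eq (w := (r / ‖v‖) • v) (by rw [hw]; exact hr1.le)
    have : 0 < 1 - r := by linarith
    refine ⟨y, (1 - r) * (r / ‖v‖), by positivity, ?_⟩
    rw [eta, hy, hw, smul_smul]
    congr 1
    field_simp
    linarith

end Radial

theorem face_injective {k : ℕ} (i : Fin (k + 1)) : Function.Injective (face i) := by
  intro x y h
  apply Subtype.ext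
  have := congrArg Subtype.val h
  rw [face_coe, face_coe] at this
  funext j
  simpa using congrFun this (i.succAbove j)

theorem exists_face_eq {k : ℕ} (i : Fin (k + 1)) (x : Sx (k + 1)) (h : x.1 i = 0) :
    ∃ y, face i y = x := by
  refine ⟨⟨fun j => x.1 (i.succAbove j), fun j => x.2.1 _, ?_⟩, Subtype.ext ?_⟩
  · have := x.2.2
    rwa [Fin.sum_univ_succAbove _ i, h, zero_add] at this
  · rw [face_coe]
    have := Fin.insertNth_self_removeNth i x.1
    rw [h] at this
    exact this

variable {Y : Type*} [TopologicalSpace Y]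

/-- Compatibility of a family of prospective faces. -/
def Compat {k : ℕ} (φ : Fin (k + 2) → C(Sx (k + 1), Y)) : Prop :=
  ∀ a (b : Fin (k + 1)), (φ (a.succAbove b)).comp (face (b.predAbove a)) = (φ a).comp (face b)

theorem Compat.exists_glue {k : ℕ} {φ : Fin (k + 2) → C(Sx (k + 1), Y)} (h : Compat φ) :
    ∃ g : Sx (k + 2) → Y, ContinuousOn g {x | ∃ i, x.1 i = 0} ∧ ∀ i x, g (face i x) = φ i x := by
  classical
  have key : ∀ a b x y, face a x = face b y → φ a x = φ b y := by
    intro a b x y e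
    by_cases hab : b = a
    · subst hab; rw [face_injective _ e]
    · obtain ⟨b, rfl⟩ := Fin.exists_succAbove_eq hab
      have h0 : x.1 b = 0 := by
        have := congrFun (congrArg Subtype.val e) (a.succAbove b)
        simpa [face_coe] using this
      obtain ⟨x, rfl⟩ := exists_face_eq b x h0
      have h1 := DFunLike.congr_fun (face_comp_face a b) x
      rw [ContinuousMap.comp_apply, ContinuousMap.comp_apply, e] at h1
      rw [← face_injective _ h1]
      exact (DFunLike.congr_fun (h a b) x).symm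
  let g : Sx (k + 2) → Y := fun x =>
    if h : ∃ p : Fin (k + 2) × Sx (k + 1), face p.1 p.2 = x then φ h.choose.1 h.choose.2
    else φ 0 (vtx 0)
  have hg : ∀ i x, g (face i x) = φ i x := fun i x => by
    have : ∃ p : Fin (k + 2) × Sx (k + 1), face p.1 p.2 = face i x := ⟨(i, x), rfl⟩
    simp only [g, dif_pos this]
    exact key _ _ _ _ this.choose_spec
  refine ⟨g, ?_, hg⟩
  refine ((locallyFinite_of_finite fun i : Fin (k + 2) => range (face i)).continuousOn_iUnion
    (fun i => (isCompact_range (face i).continuous).isClosed) fun i => ?_).mono ?_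
  · have := (face i).continuous.isClosedEmbedding (face_injective i)
    rw [← image_univ, this.isInducing.continuousOn_image_iff]
    have e : g ∘ face i = φ i := funext (hg i)
    rw [e]
    exact (φ i).continuous.continuousOn
  · rintro x ⟨i, hi⟩
    exact mem_iUnion.2 ⟨i, exists_face_eq i x hi⟩

/-- Vanishing of the `k`-th homotopy groups at all base points. -/
def PiTriv (k : ℕ) (Y : Type*) [TopologicalSpace Y] : Prop :=
  ∀ (y : Y) (f : C(Fin k → unitInterval, Y)), (∀ t ∈ Cube.boundary (Fin k), f t = y) →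
    f.HomotopicRel (.const _ y) (Cube.boundary (Fin k))

theorem piTriv_of_subsingleton {k : ℕ} (h : ∀ y : Y, Subsingleton (HomotopyGroup.Pi k Y y)) :
    PiTriv k Y := fun y f hf =>
  Quotient.exact ((h y).elim (Quotient.mk _ ⟨f, hf⟩) (Quotient.mk _ GenLoop.const))

theorem Compat.exists_extend_succ {k : ℕ} (hY : PiTriv (k + 1) Y)
    {φ : Fin (k + 3) → C(Sx (k + 2), Y)} (h : Compat φ) :
    ∃ Φ : C(Sx (k + 3), Y), ∀ i, Φ.comp (face i) = φ i := by
  obtain ⟨g, hg, hg'⟩ := h.exists_glue
  let f : C(Fin (k + 1) → unitInterval, Y) := ⟨fun y => g (rho (k + 1) y),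
    hg.comp_continuous (rho (k + 1)).continuous fun y => exists_rad_eq_zero _⟩
  have h0 : (0 : Fin (k + 1) → unitInterval) ∈ Cube.boundary (Fin (k + 1)) := ⟨0, Or.inl rfl⟩
  obtain ⟨H⟩ := hY (f 0) f fun t ht => congrArg g (rho_boundary ht h0)
  let b : Sx (k + 3) := stdSimplex.barycenter
  have hb : ∀ i, b.1 i = ((k : ℝ) + 3)⁻¹ := fun i => by simp [b]
  let Θ : C(unitInterval × (Fin (k + 1) → unitInterval), Sx (k + 3)) :=
    ⟨fun p => ⟨(1 - (p.1 : ℝ)) • (rho (k + 1) p.2).1 + (p.1 : ℝ) • b.1,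
      convex_stdSimplex ℝ _ (rho (k + 1) p.2).2 b.2 (sub_nonneg.2 p.1.2.2) p.1.2.1 (by ring)⟩,
      Continuous.subtype_mk (by
        generalize rho (k + 1) = r
        fun_prop) _⟩
  have hΘ : ∀ p i, (Θ p).1 i = (1 - (p.1 : ℝ)) * (rho (k + 1) p.2).1 i + p.1 * ((k : ℝ) + 3)⁻¹ :=
    fun p i => by simp [Θ, hb]
  have hmu : ∀ p, mu (Θ p).1 = -(p.1 * ((k : ℝ) + 3)⁻¹) := by
    intro p
    refine mu_eq (fun i => ?_) ?_
    · have := mul_nonneg (sub_nonneg.2 p.1.2.2) ((rho (k + 1) p.2).2.1 i)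
      rw [hΘ]; linarith
    · obtain ⟨i, hi⟩ := exists_rad_eq_zero (eta p.2)
      refine ⟨i, ?_⟩
      rw [hΘ, show (rho (k + 1) p.2).1 i = 0 from hi]; ring
  have hk : (0 : ℝ) < k + 3 := by positivity
  have hsurj : Function.Surjective Θ := by
    intro x
    obtain ⟨j, hj⟩ := exists_eq_mu x.1
    have hmin : ∀ i, x.1 j ≤ x.1 i := fun i => by linarith [neg_le_mu x.1 i]
    have hsum : ∑ i, (x.1 i - x.1 j) = 1 - (k + 3) * x.1 j := by
      simp [Finset.sum_sub_distrib, x.2.2]
    have hle : 0 ≤ 1 - (k + 3) * x.1 j :=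
      hsum ▸ Finset.sum_nonneg fun i _ => sub_nonneg.2 (hmin i)
    let t : unitInterval := ⟨(k + 3) * x.1 j, mul_nonneg hk.le (x.2.1 j), by linarith⟩
    rcases eq_or_lt_of_le hle with h1 | h1
    · refine ⟨(t, 0), Subtype.ext (funext fun i => ?_)⟩
      have := (Finset.sum_eq_zero_iff_of_nonneg fun i _ => sub_nonneg.2 (hmin i)).1
        (hsum.trans h1.symm) i (Finset.mem_univ i)
      rw [hΘ]
      simp only [t, ← h1]
      field_simp
      linarith
    · obtain ⟨y, hy⟩ := exists_rho_eq (k := k)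
        ⟨fun i => (x.1 i - x.1 j) / (1 - (k + 3) * x.1 j),
          fun i => div_nonneg (sub_nonneg.2 (hmin i)) hle,
          by rw [← Finset.sum_div, hsum, div_self h1.ne']⟩ ⟨j, by simp⟩
      refine ⟨(t, y), Subtype.ext (funext fun i => ?_)⟩
      rw [hΘ, hy]
      simp only [t]
      field_simp
      ring
  have hq := IsQuotientMap.of_surjective_continuous hsurj Θ.continuous
  have hfac : Function.FactorsThrough (H.toContinuousMap : C(_, Y)) Θ := by
    rintro ⟨t, y⟩ ⟨t', y'⟩ e
    obtain rfl : t = t' := by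
      have := (hmu (t, y)).symm.trans ((congrArg (fun x => mu x.1) e).trans (hmu (t', y')))
      exact Subtype.ext (mul_right_cancel₀ (inv_pos.2 hk).ne' (neg_injective this))
    by_cases ht : t = 1
    · subst ht
      exact (H.apply_one y).trans (H.apply_one y').symm
    · have : rho (k + 1) y = rho (k + 1) y' := Subtype.ext (funext fun i => by
        have := (hΘ (t, y) i).symm.trans ((congrFun (congrArg Subtype.val e) i).trans (hΘ (t, y') i))
        exact mul_left_cancel₀ (sub_ne_zero.2 fun h => ht (Subtype.ext h.symm))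
          (add_right_cancel this))
      rcases rho_eq this with rfl | ⟨h1, h2⟩
      · rfl
      · exact (H.eq_snd t h1).trans (H.eq_snd t h2).symm
  refine ⟨hq.lift _ hfac, fun i => ContinuousMap.ext fun x => ?_⟩
  obtain ⟨y, hy⟩ := exists_rho_eq (face i x) ⟨i, by simp [face_coe]⟩
  have h1 : face i x = Θ (0, y) := Subtype.ext (funext fun j => by rw [hΘ, hy]; simp)
  rw [ContinuousMap.comp_apply, h1, ← hg', ← hy]
  exact (DFunLike.congr_fun (hq.lift_comp _ hfac) (0, y)).trans (H.apply_zero y)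

theorem exists_extend_zero [PathConnectedSpace Y] (φ : Fin 2 → C(Sx 1, Y)) :
    ∃ Φ : C(Sx 2, Y), ∀ i, Φ.comp (face i) = φ i := by
  let γ := PathConnectedSpace.somePath (φ 1 (vtx 0)) (φ 0 (vtx 0))
  refine ⟨⟨fun x => γ ⟨x.1 1, mem_Icc_of_mem_stdSimplex x.2 1⟩,
    γ.continuous.comp (Continuous.subtype_mk
      ((continuous_apply 1).comp continuous_subtype_val) _)⟩, fun i => ?_⟩
  ext x
  obtain rfl : x = vtx 0 := Subsingleton.elim _ _
  rw [ContinuousMap.comp_apply, face_vtx]
  fin_cases i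
  · exact (congrArg γ (Subtype.ext (by simp [vtx_coe]))).trans γ.target
  · exact (congrArg γ (Subtype.ext (by simp [vtx_coe]))).trans γ.source

theorem exists_seq' {T : ℕ → Type*} (P : ∀ k, T k → Prop) (Rel : ∀ k, T k → T (k + 1) → Prop)
    (t₀ : T 0) (h₀ : P 0 t₀) (step : ∀ k t, P k t → ∃ t', P (k + 1) t' ∧ Rel k t t') :
    ∃ f : ∀ k, T k, f 0 = t₀ ∧ ∀ k, P k (f k) ∧ Rel k (f k) (f (k + 1)) := by
  choose s hs using step
  let g : ∀ k, {t : T k // P k t} := fun k =>
    Nat.rec ⟨t₀, h₀⟩ (fun k t => ⟨s k t.1 t.2, (hs k t.1 t.2).1⟩) k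
  exact ⟨fun k => (g k).1, rfl, fun k => ⟨(g k).2, (hs k (g k).1 (g k).2).2⟩⟩

/-- A weakly contractible space has a coning with any prescribed apex. -/
theorem exists_coning [PathConnectedSpace Y] (hY : ∀ k, PiTriv (k + 1) Y) (e : Y) :
    ∃ K : Coning Y, ∀ σ x, K.c 0 σ x = e := by
  obtain ⟨c, h0, hc⟩ := exists_seq' (T := fun k => C(Sx k, Y) → C(Sx (k + 1), Y))
    (fun k c => (∀ σ, (c σ).comp (face 0) = σ) ∧ ∀ σ : C(Sx (k + 1), Y),
      Compat (Fin.cons σ fun i => c (σ.comp (face i)) : Fin (k + 2) → _))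
    (fun k c c' => ∀ σ (i : Fin (k + 1)), (c' σ).comp (face i.succ) = c (σ.comp (face i)))
    (fun _ => .const _ e)
    ⟨fun _ => by ext x; exact isEmptyElim x, fun _ _ _ => by ext x; exact isEmptyElim x⟩
    (by
      rintro k c ⟨-, h2⟩
      have : ∀ σ : C(Sx (k + 1), Y), ∃ Φ : C(Sx (k + 2), Y), ∀ i, Φ.comp (face i) =
          (Fin.cons σ fun i => c (σ.comp (face i)) : Fin (k + 2) → _) i := fun σ => by
        cases k with
        | zero => exact exists_extend_zero _
        | succ k => exact (h2 σ).exists_extend_succ (hY k)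
      choose c' hc' using this
      have e0 : ∀ σ, (c' σ).comp (face 0) = σ := fun σ => hc' σ 0
      have e1 : ∀ σ (i : Fin (k + 1)), (c' σ).comp (face i.succ) = c (σ.comp (face i)) :=
        fun σ i => hc' σ i.succ
      refine ⟨c', ⟨e0, fun σ a b => ?_⟩, e1⟩
      refine Fin.cases ?_ (fun a => ?_) a
      · simp [e0]
      · refine Fin.cases ?_ (fun b => ?_) b
        · simp [e0]
        · simp only [Fin.succ_succAbove_succ, Fin.succ_predAbove_succ, Fin.cons_succ, e1,
            ContinuousMap.comp_assoc, face_comp_face])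
  exact ⟨⟨c, fun k => (hc k).1.1, fun k => (hc k).2⟩, fun σ x => by simp [h0]⟩

/-- The universal covering of an aspherical space has a coning. -/
theorem UC.exists_coning {M : Type*} [TopologicalSpace M] [PathConnectedSpace M] (h : LocSC M)
    (hM : ∀ k, 2 ≤ k → ∀ x : M, Subsingleton (HomotopyGroup.Pi k M x)) (m : M) (e : UC m) :
    ∃ K : Coning (UC m), ∀ σ x, K.c 0 σ x = e := by
  have := UC.simplyConnectedSpace (m := m) h
  have cov := (UC.isQuotientCoveringMap (m := m) h).isCoveringMap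
  refine H72Sing.exists_coning (fun k => ?_) e
  cases k with
  | zero =>
    exact piTriv_of_subsingleton fun y => HomotopyGroup.pi1EquivFundamentalGroup.subsingleton
  | succ k =>
    intro y f hf
    have h0 : (0 : Fin (k + 2) → unitInterval) ∈ Cube.boundary (Fin (k + 2)) := ⟨0, Or.inl rfl⟩
    refine (cov.homotopicRel_iff_comp (f₀ := f) (f₁ := .const _ y) ⟨0, h0, hf 0 h0⟩).2 ?_
    exact piTriv_of_subsingleton (hM (k + 2) (by omega)) y.pt _ fun t ht => congrArg UC.pt (hf t ht)

end Pool.Agent.Shared.H72Sing
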