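import Pool.Agent.Shared.H72Sing.Tuple

/-!
Singular chains with coefficients in a commutative ring, indexed by the number of vertices
(so that the complex is augmented): boundary, push-forward, supports, prisms and cones.
-/

namespace Pool.Agent.Shared.H72Sing

open Finsupp Set

/-- The standard simplex with `k` vertices. -/
abbrev Sx (k : ℕ) : Type := ↥(stdSimplex ℝ (Fin k))

section Aff

variable {E : Type*} [AddCommGroup E] [Module ℝ E] [TopologicalSpace E]
  [IsTopologicalAddGroup E] [ContinuousSMul ℝ E] {s : Set E}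

/-- The affine simplex with given vertices in a convex set. -/
noncomputable def affC (hs : Convex ℝ s) {k : ℕ} (v : Fin k → s) : C(Sx k, s) where
  toFun x := ⟨∑ i, x.1 i • (v i : E),
    hs.sum_mem (fun i _ => x.2.1 i) x.2.2 (fun i _ => (v i).2)⟩
  continuous_toFun := Continuous.subtype_mk (continuous_finsetSum _ fun i _ =>
    ((continuous_apply i).comp continuous_subtype_val).smul continuous_const) _

theorem affC_coe (hs : Convex ℝ s) {k : ℕ} (v : Fin k → s) (x : Sx k) :
    (affC hs v x : E) = ∑ i, x.1 i • (v i : E) := rfl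

/-- Vertices of the standard simplex. -/
noncomputable def vtx {k : ℕ} (i : Fin k) : Sx k := ⟨Pi.single i 1, single_mem_stdSimplex ℝ i⟩

theorem vtx_coe {k : ℕ} (i : Fin k) : (vtx i).1 = Pi.single i 1 := rfl

@[simp] theorem affC_vtx (hs : Convex ℝ s) {k : ℕ} (v : Fin k → s) (i : Fin k) :
    affC hs v (vtx i) = v i := by
  apply Subtype.ext
  simp [affC_coe, vtx_coe, Pi.single_apply]

/-- The affine simplex with given vertices in a standard simplex. -/
noncomputable def aff {k m : ℕ} (v : Fin k → Sx m) : C(Sx k, Sx m) :=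
  affC (convex_stdSimplex ℝ (Fin m)) v

theorem aff_coe {k m : ℕ} (v : Fin k → Sx m) (x : Sx k) :
    (aff v x).1 = ∑ i, x.1 i • (v i).1 := rfl

@[simp] theorem aff_vtx {k m : ℕ} (v : Fin k → Sx m) (i : Fin k) : aff v (vtx i) = v i :=
  affC_vtx _ v i

theorem affC_comp_aff (hs : Convex ℝ s) {k m : ℕ} (v : Fin m → s) (w : Fin k → Sx m) :
    (affC hs v).comp (aff w) = affC hs (affC hs v ∘ w) := by
  ext x
  simp only [ContinuousMap.comp_apply, affC_coe, aff_coe, Function.comp_apply, Finset.sum_apply,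
    Pi.smul_apply, smul_eq_mul, Finset.sum_smul, Finset.smul_sum, smul_smul]
  rw [Finset.sum_comm]

theorem aff_comp_aff {k m l : ℕ} (v : Fin m → Sx l) (w : Fin k → Sx m) :
    (aff v).comp (aff w) = aff (aff v ∘ w) := affC_comp_aff _ v w

@[simp] theorem aff_vtx_eq_id {k : ℕ} : aff (vtx : Fin k → Sx k) = ContinuousMap.id _ := by
  ext x i
  change (aff vtx x).1 i = x.1 i
  simp [aff_coe, vtx_coe, Finset.sum_apply, Pi.single_apply]

/-- Face maps of standard simplices. -/
noncomputable def face {k : ℕ} (i : Fin (k + 1)) : C(Sx k, Sx (k + 1)) :=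
  aff (vtx ∘ i.succAbove)

theorem affC_comp_face (hs : Convex ℝ s) {k : ℕ} (v : Fin (k + 1) → s) (i : Fin (k + 1)) :
    (affC hs v).comp (face i) = affC hs (v ∘ i.succAbove) := by
  rw [face, affC_comp_aff]
  congr 1
  funext j
  simp

theorem aff_comp_face {k m : ℕ} (v : Fin (k + 1) → Sx m) (i : Fin (k + 1)) :
    (aff v).comp (face i) = aff (v ∘ i.succAbove) := affC_comp_face _ v i

@[simp] theorem face_vtx {k : ℕ} (i : Fin (k + 1)) (j : Fin k) :
    face i (vtx j) = vtx (i.succAbove j) := by simp [face]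

theorem face_comp_face {k : ℕ} (i : Fin (k + 2)) (j : Fin (k + 1)) :
    (face (i.succAbove j)).comp (face (j.predAbove i)) = (face i).comp (face j) := by
  rw [face, aff_comp_face, face, aff_comp_face]
  congr 1
  funext x
  simp [Fin.succAbove_succAbove_succAbove_predAbove]

theorem face_comp_aff {k m : ℕ} (i : Fin (m + 1)) (w : Fin k → Sx m) :
    (face i).comp (aff w) = aff (face i ∘ w) := aff_comp_aff _ w

theorem face_coe {k : ℕ} (i : Fin (k + 1)) (x : Sx k) : (face i x).1 = i.insertNth 0 x.1 := by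
  rw [face, aff_coe]
  funext j
  refine Fin.succAboveCases i ?_ (fun j => ?_) j
  · simp [vtx_coe, Finset.sum_apply, (Fin.succAbove_ne i _).symm]
  · simp [vtx_coe, Finset.sum_apply, Pi.single_apply]

end Aff

variable {R : Type*} [CommRing R] {X Y Z W : Type*} [TopologicalSpace X] [TopologicalSpace Y]
  [TopologicalSpace Z] [TopologicalSpace W]

/-- Singular chains on simplices with `k` vertices. -/
abbrev Ch (R : Type*) [CommRing R] (X : Type*) [TopologicalSpace X] (k : ℕ) :=
  C(Sx k, X) →₀ R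

/-- Boundary of singular chains. -/
noncomputable def bd (R : Type*) [CommRing R] (X : Type*) [TopologicalSpace X] (k : ℕ) :
    Ch R X (k + 1) →ₗ[R] Ch R X k :=
  altBd R fun (i : Fin (k + 1)) (σ : C(Sx (k + 1), X)) => σ.comp (face i)

/-- Push-forward of singular chains. -/
noncomputable def push (R : Type*) [CommRing R] (f : C(X, Y)) (k : ℕ) :
    Ch R X k →ₗ[R] Ch R Y k := lm R fun σ => f.comp σ

/-- Chains with all simplices inside a set. -/
def CIn (R : Type*) [CommRing R] (A : Set X) (k : ℕ) : Submodule R (Ch R X k) :=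
  supported R R {σ | range σ ⊆ A}

theorem bd_single (k : ℕ) (σ : C(Sx (k + 1), X)) (r : R) :
    bd R X k (single σ r) = ∑ i : Fin (k + 1), (-1 : R) ^ (i : ℕ) • single (σ.comp (face i)) r :=
  altBd_single _ _ _

theorem bd_bd (k : ℕ) (z : Ch R X (k + 2)) : bd R X k (bd R X (k + 1) z) = 0 := by
  refine altBd_altBd _ _ (fun i j σ => ?_) z
  rw [ContinuousMap.comp_assoc, face_comp_face, ContinuousMap.comp_assoc]

@[simp] theorem push_single (f : C(X, Y)) (k : ℕ) (σ : C(Sx k, X)) (r : R) :
    push R f k (single σ r) = single (f.comp σ) r := lm_single _ _ _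

theorem push_bd (f : C(X, Y)) (k : ℕ) (z : Ch R X (k + 1)) :
    push R f k (bd R X k z) = bd R Y k (push R f (k + 1) z) := by
  unfold push bd
  exact lm_altBd _ _ (fun σ : C(Sx (k + 1), X) => f.comp σ) (fun σ : C(Sx k, X) => f.comp σ)
    (fun _ _ => rfl) z

theorem push_push (f : C(X, Y)) (g : C(Y, Z)) (k : ℕ) (z : Ch R X k) :
    push R g k (push R f k z) = push R (g.comp f) k z := by
  simp only [push, lm_lm]; rfl

theorem push_id (k : ℕ) (z : Ch R X k) : push R (ContinuousMap.id X) k z = z := lm_id z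

theorem mem_CIn {A : Set X} {k : ℕ} {z : Ch R X k} :
    z ∈ CIn R A k ↔ ∀ σ ∈ z.support, range σ ⊆ A := Iff.rfl

theorem single_mem_CIn {A : Set X} {k : ℕ} {σ : C(Sx k, X)} (h : range σ ⊆ A) (r : R) :
    single σ r ∈ CIn R A k := single_mem_supported R r h

theorem CIn_mono {A B : Set X} (h : A ⊆ B) (k : ℕ) : CIn R A k ≤ CIn R B k :=
  supported_mono fun _ hσ => hσ.trans h

theorem mem_CIn_univ {k : ℕ} (z : Ch R X k) : z ∈ CIn R univ k := fun _ _ => subset_univ _

theorem mem_CIn_zero (A : Set X) (z : Ch R X 0) : z ∈ CIn R A 0 := by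
  intro σ _
  rintro _ ⟨x, rfl⟩
  have := x.2.2
  simp at this

theorem mem_CIn_inter {A B : Set X} {k : ℕ} {z : Ch R X k} (hA : z ∈ CIn R A k)
    (hB : z ∈ CIn R B k) : z ∈ CIn R (A ∩ B) k :=
  fun _ hσ => subset_inter (hA hσ) (hB hσ)

theorem CIn_empty (k : ℕ) {z : Ch R X (k + 1)} (hz : z ∈ CIn R ∅ (k + 1)) : z = 0 := by
  by_contra h
  obtain ⟨σ, hσ⟩ := Finsupp.support_nonempty_iff.2 h
  exact hz hσ ⟨vtx 0, rfl⟩

theorem bd_mem_CIn {A : Set X} {k : ℕ} {z : Ch R X (k + 1)} (hz : z ∈ CIn R A (k + 1)) :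
    bd R X k z ∈ CIn R A k := by
  unfold bd CIn
  refine altBd_mem_supported _ (s := {σ : C(Sx (k + 1), X) | range σ ⊆ A}) (fun i σ hσ => ?_) hz
  rintro _ ⟨x, rfl⟩
  exact hσ ⟨_, rfl⟩

theorem push_mem_CIn (f : C(X, Y)) {A : Set X} {B : Set Y} (h : MapsTo f A B) {k : ℕ}
    {z : Ch R X k} (hz : z ∈ CIn R A k) : push R f k z ∈ CIn R B k :=
  lm_mem_supported hz fun σ hσ => by
    rintro _ ⟨x, rfl⟩
    exact h (hσ ⟨x, rfl⟩)

theorem push_congr {f g : C(X, Y)} {A : Set X} (h : EqOn f g A) {k : ℕ} {z : Ch R X k}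
    (hz : z ∈ CIn R A k) : push R f k z = push R g k z :=
  lm_congr fun σ hσ => by
    ext x
    exact h (hz hσ ⟨x, rfl⟩)

theorem push_injective {f : C(X, Y)} (hf : Function.Injective f) (k : ℕ) :
    Function.Injective (push R f k) := by
  refine Finsupp.mapDomain_injective fun σ τ h => ?_
  ext x
  exact hf (DFunLike.congr_fun h x)

theorem mem_CIn_of_push {f : C(X, Y)} (hf : Function.Injective f) {B : Set Y} {k : ℕ}
    {z : Ch R X k} (hz : push R f k z ∈ CIn R B k) : z ∈ CIn R (f ⁻¹' B) k := by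
  classical
  intro σ hσ
  have hinj : Function.Injective fun σ : C(Sx k, X) => f.comp σ := fun σ τ h => by
    ext x
    exact hf (DFunLike.congr_fun h x)
  have : f.comp σ ∈ (push R f k z).support := by
    change f.comp σ ∈ (Finsupp.mapDomain _ z).support
    rw [Finsupp.mapDomain_support_of_injective hinj]
    exact Finset.mem_image_of_mem _ hσ
  rintro _ ⟨x, rfl⟩
  exact hz this ⟨x, rfl⟩

/-- Lifting a chain along a map of bases. -/
theorem exists_lm_eq {A B : Type*} (p : A → B) (s : Set A) (c : B →₀ R)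
    (h : ∀ b ∈ c.support, ∃ a ∈ s, p a = b) : ∃ c' ∈ supported R R s, lm R p c' = c := by
  have : c ∈ (supported R R s).map (lm R p) := by
    rw [lmapDomain_supported]
    exact fun b hb => h b hb
  exact this

theorem exists_push_eq {f : C(X, Y)} (hf : Topology.IsEmbedding f) {k : ℕ} {c : Ch R Y k}
    (hc : c ∈ CIn R (range f) k) : ∃ c', push R f k c' = c := by
  obtain ⟨c', -, h⟩ := exists_lm_eq (fun σ : C(Sx k, X) => f.comp σ) univ c fun τ hτ => by
    choose g hg using fun x => hc hτ ⟨x, rfl⟩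
    refine ⟨⟨g, hf.continuous_iff.2 ?_⟩, mem_univ _, ?_⟩
    · have : f ∘ g = τ := funext hg
      rw [this]; exact τ.continuous
    · ext x; exact hg x
  exact ⟨c', h⟩

/-- The compact set carrying a chain. -/
def carrier {k : ℕ} (z : Ch R X k) : Set X := ⋃ σ ∈ z.support, range σ

theorem isCompact_carrier {k : ℕ} (z : Ch R X k) : IsCompact (carrier z) :=
  z.support.isCompact_biUnion fun σ _ => isCompact_range σ.continuous

theorem mem_CIn_iff_carrier {A : Set X} {k : ℕ} {z : Ch R X k} :
    z ∈ CIn R A k ↔ carrier z ⊆ A := by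
  simp [mem_CIn, carrier]

/-- Realisation of tuple chains as singular chains. -/
noncomputable def real (R : Type*) [CommRing R] (a : ∀ k, (Fin k → W) → C(Sx k, W))
    (σ : C(W, X)) (k : ℕ) : TCh R W k →ₗ[R] Ch R X k := lm R fun v => σ.comp (a k v)

@[simp] theorem real_single (a : ∀ k, (Fin k → W) → C(Sx k, W)) (σ : C(W, X)) (k : ℕ)
    (v : Fin k → W) (r : R) : real R a σ k (single v r) = single (σ.comp (a k v)) r :=
  lm_single _ _ _

theorem real_tbd (a : ∀ k, (Fin k → W) → C(Sx k, W))
    (ha : ∀ k v (i : Fin (k + 1)), (a (k + 1) v).comp (face i) = a k (v ∘ i.succAbove))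
    (σ : C(W, X)) (k : ℕ) (z : TCh R W (k + 1)) :
    real R a σ k (tbd R W k z) = bd R X k (real R a σ (k + 1) z) := by
  unfold real tbd bd
  refine lm_altBd _ _ (fun v => σ.comp (a (k + 1) v)) (fun v => σ.comp (a k v)) (fun i v => ?_) z
  rw [ContinuousMap.comp_assoc, ha]

theorem real_tmap {W' : Type*} [TopologicalSpace W'] (a : ∀ k, (Fin k → W) → C(Sx k, W))
    (a' : ∀ k, (Fin k → W') → C(Sx k, W')) (f : C(W, W'))
    (hf : ∀ k v, f.comp (a k v) = a' k (f ∘ v)) (σ : C(W', X)) (k : ℕ) (z : TCh R W k) :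
    real R a' σ k (tmap R f k z) = real R a (σ.comp f) k z := by
  simp only [real, tmap, lm_lm]
  congr 2
  funext v
  simp only [Function.comp_apply, ContinuousMap.comp_assoc, hf]

theorem push_real (a : ∀ k, (Fin k → W) → C(Sx k, W)) (σ : C(W, X)) (f : C(X, Y)) (k : ℕ)
    (z : TCh R W k) : push R f k (real R a σ k z) = real R a (f.comp σ) k z := by
  simp only [real, push, lm_lm]; rfl

theorem real_mem_CIn (a : ∀ k, (Fin k → W) → C(Sx k, W)) (σ : C(W, X)) (k : ℕ)
    (z : TCh R W k) {A : Set X} (h : range σ ⊆ A) : real R a σ k z ∈ CIn R A k :=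
  lm_mem_supported (s := univ) (fun _ _ => mem_univ _) fun _ _ => by
    rintro _ ⟨x, rfl⟩
    exact h ⟨_, rfl⟩

theorem tbd_single_vtx (k : ℕ) : tbd R (Sx (k + 1)) k (single vtx 1) =
    ∑ i : Fin (k + 1), (-1 : R) ^ (i : ℕ) • tmap R (face i) k (single vtx 1) := by
  rw [tbd_single]
  refine Finset.sum_congr rfl fun i _ => ?_
  rw [tmap_single]
  congr 2
  funext j
  simp

section Prism

/-- Affine simplices in a prism. -/
noncomputable def affP (m k : ℕ) (v : Fin k → Sx m × unitInterval) : C(Sx k, Sx m × unitInterval) :=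
  (aff (Prod.fst ∘ v)).prodMk (affC (convex_Icc (0 : ℝ) 1) (Prod.snd ∘ v))

theorem affP_face (m k : ℕ) (v : Fin (k + 1) → Sx m × unitInterval) (i : Fin (k + 1)) :
    (affP m (k + 1) v).comp (face i) = affP m k (v ∘ i.succAbove) := by
  ext1 x
  refine Prod.ext ?_ ?_
  · exact DFunLike.congr_fun (aff_comp_face (Prod.fst ∘ v) i) x
  · exact DFunLike.congr_fun (affC_comp_face _ (Prod.snd ∘ v) i) x

theorem affP_const (k : ℕ) (t : unitInterval) :
    affP k k ((fun x => (x, t)) ∘ vtx) = (ContinuousMap.id _).prodMk (.const _ t) := by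
  ext1 x
  refine Prod.ext ?_ ?_
  · exact DFunLike.congr_fun aff_vtx_eq_id x
  · apply Subtype.ext
    change ∑ i, x.1 i • (t : ℝ) = t
    rw [← Finset.sum_smul, x.2.2, one_smul]

/-- The universal prism operator on tuples. -/
noncomputable def tprism (R : Type*) [CommRing R] (Y : Type*) (k : ℕ) :
    TCh R Y k →ₗ[R] TCh R (Y × unitInterval) (k + 1) :=
  thom R (fun k => tmap R (fun y => (y, (1 : unitInterval))) k - tmap R (fun y => (y, (0 : unitInterval))) k)
    (fun _ v => (v 0, 0)) k

theorem tbd_tprism (Y : Type*) (k : ℕ) (z : TCh R Y (k + 1)) :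
    tbd R _ (k + 1) (tprism R Y (k + 1) z) = tmap R (fun y => (y, (1 : unitInterval))) (k + 1) z -
      tmap R (fun y => (y, (0 : unitInterval))) (k + 1) z - tprism R Y k (tbd R Y k z) := by
  refine tbd_thom _ _ ?_ (fun k z => ?_) k z
  · have : (fun v : Fin 0 → Y => (fun y => (y, (1 : unitInterval))) ∘ v) =
        fun v => (fun y => (y, (0 : unitInterval))) ∘ v := by
      funext v x
      exact x.elim0
    unfold tmap
    rw [this]
    exact LinearMap.ext fun z => sub_self _
  · simp only [LinearMap.sub_apply, map_sub, tmap_tbd]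

theorem tmap_tprism {Y Y' : Type*} (f : Y → Y') (k : ℕ) (z : TCh R Y k) :
    tmap R (Prod.map f id) (k + 1) (tprism R Y k z) = tprism R Y' k (tmap R f k z) := by
  refine tmap_thom _ _ _ _ f (Prod.map f id) (fun k z => ?_) (fun _ _ => rfl) k z
  simp only [LinearMap.sub_apply, map_sub, tmap_tmap]
  rfl

/-- Prism operator of a family of homotopies of simplices. -/
noncomputable def prism (R : Type*) [CommRing R] (H : ∀ k, C(Sx k, X) → C(Sx k × unitInterval, Y)) (k : ℕ) :
    Ch R X k →ₗ[R] Ch R Y (k + 1) :=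
  linearCombination R fun σ => real R (affP k) (H k σ) (k + 1) (tprism R _ k (single vtx 1))

theorem prism_single (H : ∀ k, C(Sx k, X) → C(Sx k × unitInterval, Y)) (k : ℕ) (σ : C(Sx k, X)) :
    prism R H k (single σ 1) = real R (affP k) (H k σ) (k + 1) (tprism R _ k (single vtx 1)) := by
  simp [prism]

/-- End of a family of homotopies of simplices. -/
noncomputable def hend (R : Type*) [CommRing R] (H : ∀ k, C(Sx k, X) → C(Sx k × unitInterval, Y)) (t : unitInterval)
    (k : ℕ) : Ch R X k →ₗ[R] Ch R Y k :=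
  lm R fun σ => (H k σ).comp ((ContinuousMap.id _).prodMk (.const _ t))

theorem bd_prism (H : ∀ k, C(Sx k, X) → C(Sx k × unitInterval, Y))
    (hH : ∀ k σ (i : Fin (k + 1)), H k (σ.comp (face i)) =
      (H (k + 1) σ).comp ((face i).prodMap (ContinuousMap.id unitInterval)))
    (k : ℕ) (z : Ch R X (k + 1)) :
    bd R Y (k + 1) (prism R H (k + 1) z) =
      hend R H 1 (k + 1) z - hend R H 0 (k + 1) z - prism R H k (bd R X k z) := by
  refine eq_of_support (f := (bd R Y (k + 1)).comp (prism R H (k + 1)))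
    (g := hend R H 1 (k + 1) - hend R H 0 (k + 1) - (prism R H k).comp (bd R X k)) fun σ _ => ?_
  simp only [LinearMap.comp_apply, LinearMap.sub_apply]
  rw [prism_single, ← real_tbd _ (affP_face _), tbd_tprism, map_sub, map_sub, tmap_single,
    tmap_single, real_single, real_single, affP_const, affP_const, hend, hend, lm_single, lm_single,
    tbd_single_vtx, bd_single, map_sum, map_sum, map_sum]
  congr 1
  refine Finset.sum_congr rfl fun i _ => ?_
  rw [map_smul, map_smul, map_smul, prism_single, ← tmap_tprism, hH]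
  congr 1
  refine real_tmap (affP k) (affP (k + 1)) ((face i).prodMap (ContinuousMap.id unitInterval))
    (fun l v => ?_) _ _ _
  ext1 x
  refine Prod.ext ?_ rfl
  exact DFunLike.congr_fun (face_comp_aff i (Prod.fst ∘ v)) x

theorem prism_mem_CIn (H : ∀ k, C(Sx k, X) → C(Sx k × unitInterval, Y)) {k : ℕ} {z : Ch R X k} {B : Set Y}
    (h : ∀ σ ∈ z.support, range (H k σ) ⊆ B) : prism R H k z ∈ CIn R B (k + 1) :=
  mem_of_support fun σ hσ => by
    rw [prism_single]
    exact real_mem_CIn _ _ _ _ (h σ hσ)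

/-- Homotopy invariance at chain level, with control of supports. -/
theorem exists_prism (H : C(X × unitInterval, Y)) (f g : C(X, Y)) (hf : ∀ x, H (x, 0) = f x)
    (hg : ∀ x, H (x, 1) = g x) :
    ∃ P : ∀ k, Ch R X k →ₗ[R] Ch R Y (k + 1),
      (∀ k z, bd R Y (k + 1) (P (k + 1) z) =
        push R g (k + 1) z - push R f (k + 1) z - P k (bd R X k z)) ∧
      ∀ (A : Set X) (B : Set Y), (∀ x ∈ A, ∀ t, H (x, t) ∈ B) →
        ∀ k, ∀ z ∈ CIn R A k, P k z ∈ CIn R B (k + 1) := by
  refine ⟨prism R fun k σ => H.comp (σ.prodMap (ContinuousMap.id unitInterval)), fun k z => ?_, ?_⟩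
  · rw [bd_prism _ (fun _ _ _ => rfl)]
    congr 2
    · unfold hend push
      congr 2
      funext σ
      ext x
      exact hg _
    · unfold hend push
      congr 2
      funext σ
      ext x
      exact hf _
  · intro A B hAB k z hz
    refine prism_mem_CIn _ fun σ hσ => ?_
    rintro _ ⟨⟨x, t⟩, rfl⟩
    exact hAB _ (hz hσ ⟨x, rfl⟩) t

end Prism

section Cone

/-- A coherent choice of cones on all singular simplices. -/
structure Coning (X : Type*) [TopologicalSpace X] where
  c : ∀ k, C(Sx k, X) → C(Sx (k + 1), X)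
  face_zero : ∀ k σ, (c k σ).comp (face 0) = σ
  face_succ : ∀ k σ (i : Fin (k + 1)), (c (k + 1) σ).comp (face i.succ) = c k (σ.comp (face i))

theorem bd_lm_cone_zero {A : Type*} (c : A → C(Sx 1, X)) (e : A → C(Sx 0, X)) (z : A →₀ R) :
    bd R X 0 (lm R c z) = lm R e z := by
  rw [bd, altBd_apply]
  simp only [lm_lm, Fin.sum_univ_succ, Finset.univ_eq_empty, Finset.sum_empty, add_zero,
    Fin.val_zero, pow_zero, one_smul]
  congr 2
  funext a
  ext x
  have := x.2.2
  simp at this

theorem bd_single_succ (k : ℕ) (σ : C(Sx (k + 2), X)) (r : R) :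
    bd R X (k + 1) (single σ r) = single (σ.comp (face 0)) r -
      ∑ i : Fin (k + 1), (-1 : R) ^ (i : ℕ) • single (σ.comp (face i.succ)) r := by
  rw [bd_single, Fin.sum_univ_succ, sub_eq_add_neg, ← Finset.sum_neg_distrib]
  simp [pow_succ]

theorem Coning.bd_cone (K : Coning X) (k : ℕ) (z : Ch R X (k + 1)) :
    bd R X (k + 1) (lm R (K.c (k + 1)) z) = z - lm R (K.c k) (bd R X k z) := by
  refine eq_of_support (f := (bd R X (k + 1)).comp (lm R (K.c (k + 1))))
    (g := LinearMap.id - (lm R (K.c k)).comp (bd R X k)) fun σ _ => ?_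
  simp only [LinearMap.comp_apply, LinearMap.sub_apply, LinearMap.id_apply, lm_single]
  rw [bd_single_succ, K.face_zero, bd_single, map_sum]
  simp only [K.face_succ, map_smul, lm_single]

theorem Coning.bd_cone_zero (K : Coning X) (z : Ch R X 0) :
    bd R X 0 (lm R (K.c 0) z) = z := by
  rw [bd_lm_cone_zero _ id, lm_id]

/-- Product of conings. -/
noncomputable def Coning.prod (K : Coning X) (L : Coning Y) : Coning (X × Y) where
  c k σ := (K.c k (ContinuousMap.fst.comp σ)).prodMk (L.c k (ContinuousMap.snd.comp σ))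
  face_zero k σ := by
    ext1 x
    exact Prod.ext (DFunLike.congr_fun (K.face_zero k _) x) (DFunLike.congr_fun (L.face_zero k _) x)
  face_succ k σ i := by
    ext1 x
    exact Prod.ext (DFunLike.congr_fun (K.face_succ k _ i) x)
      (DFunLike.congr_fun (L.face_succ k _ i) x)

/-- Constant simplices form an acyclic complex. -/
theorem bd_const (x : X) (k : ℕ) (z : Ch R Y (k + 1)) :
    bd R X (k + 1) (lm R (fun _ => ContinuousMap.const (Sx (k + 2)) x) z) =
      push R (.const Y x) (k + 1) z -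
        lm R (fun _ => ContinuousMap.const (Sx (k + 1)) x) (bd R Y k z) := by
  refine eq_of_support
    (f := (bd R X (k + 1)).comp (lm R (fun _ => ContinuousMap.const (Sx (k + 2)) x)))
    (g := push R (.const Y x) (k + 1) -
      (lm R (fun _ => ContinuousMap.const (Sx (k + 1)) x)).comp (bd R Y k)) fun σ _ => ?_
  simp only [LinearMap.comp_apply, LinearMap.sub_apply, lm_single, push_single]
  rw [bd_single_succ, bd_single, map_sum]
  simp only [map_smul, lm_single]
  rfl

end Cone

end Pool.Agent.Shared.H72Sing
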