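import Pool.Agent.Shared.H72Sing.Relative

/-!
The mod two fundamental class of a compact topological manifold.
-/

namespace Pool.Agent.Shared.H72Sing

open Finsupp Set Topology

variable {R : Type*} [CommRing R] {N : Type*} [TopologicalSpace N] {d : ℕ}

/-- Every point lies in the range of an open embedding of `ℝ^d`. -/
def LocEuc (d : ℕ) (N : Type*) [TopologicalSpace N] : Prop :=
  ∀ p : N, ∃ e : C(Fin d → ℝ, N), IsOpenEmbedding e ∧ p ∈ range e

theorem sph_point_euc (x : Fin d → ℝ) : Sph R {x} d := by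
  let e : C(Fin d → ℝ, Fin d → ℝ) := ⟨Homeomorph.addRight x, (Homeomorph.addRight x).continuous⟩
  refine Sph.of_preimage (e := e) (Homeomorph.addRight x).isOpenEmbedding isClosed_singleton
    (fun y _ => (Homeomorph.addRight x).surjective y) ?_
  convert sph_zero (R := R) d using 1
  ext y
  simp [e]

theorem LocEuc.sph [T1Space N] (h : LocEuc d N) (p : N) : Sph R {p} d := by
  obtain ⟨e, he, x, rfl⟩ := h p
  refine Sph.of_preimage he isClosed_singleton (by simp) ?_
  convert sph_point_euc (R := R) x using 1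
  ext y
  simp [he.injective.eq_iff]

/-- Relative cycles of degree at least `d` that are locally trivial are trivial. -/
def LocDet (R : Type*) [CommRing R] (d : ℕ) (K : Set N) : Prop :=
  ∀ k, d ≤ k → ∀ z : Ch R N (k + 1), bd R N k z ∈ CIn R Kᶜ k →
    (∀ x ∈ K, z ∈ RB R {x} (k + 1)) → z ∈ RB R K (k + 1)

theorem LocDet.empty : LocDet R d (∅ : Set N) := fun _ _ z _ _ => mem_RB_empty z

theorem LocDet.union [T1Space N] (h : LocEuc d N) {A B : Set N} (hA : IsClosed A)
    (hB : IsClosed B) (h1 : LocDet R d A) (h2 : LocDet R d B) (h3 : LocDet R d (A ∩ B)) :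
    LocDet R d (A ∪ B) := by
  intro k hk z hz hloc
  obtain ⟨wA, hwA⟩ := mem_RB.1 (h1 k hk z (CIn_mono (compl_subset_compl.2 subset_union_left) k hz)
    fun x hx => hloc x (Or.inl hx))
  obtain ⟨wB, hwB⟩ := mem_RB.1 (h2 k hk z (CIn_mono (compl_subset_compl.2 subset_union_right) k hz)
    fun x hx => hloc x (Or.inr hx))
  have hbd : bd R N (k + 1) (wA - wB) ∈ CIn R (A ∩ B)ᶜ (k + 1) := by
    have : bd R N (k + 1) (wA - wB) = -(z - bd R N (k + 1) wA) + (z - bd R N (k + 1) wB) := by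
      rw [map_sub]; abel
    rw [this]
    exact add_mem (neg_mem (CIn_mono (compl_subset_compl.2 inter_subset_left) _ hwA))
      (CIn_mono (compl_subset_compl.2 inter_subset_right) _ hwB)
  refine mv_glue hA hB hwA hwB (h3 (k + 1) (by omega) _ hbd fun x hx => ?_)
  exact (h.sph x).1 (k + 1) (by omega) _
    (CIn_mono (compl_subset_compl.2 (singleton_subset_iff.2 hx)) _ hbd)

theorem LocDet.iUnion [T1Space N] (h : LocEuc d N) (C : Set N → Prop)
    (hC : ∀ K, C K → IsClosed K ∧ LocDet R d K) (hI : ∀ K L, C K → C L → C (K ∩ L)) :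
    ∀ (n : ℕ) (K : Fin n → Set N), (∀ i, C (K i)) → LocDet R d (⋃ i, K i)
  | 0, K, _ => by simpa using LocDet.empty
  | n + 1, K, hK => by
    have e : ⋃ i, K i = K 0 ∪ ⋃ i : Fin n, K i.succ := by
      ext x; simp [Fin.exists_fin_succ]
    rw [e]
    refine LocDet.union h (hC _ (hK 0)).1 (isClosed_iUnion_of_finite fun i => (hC _ (hK _)).1)
      (hC _ (hK 0)).2 (LocDet.iUnion h C hC hI n _ fun i => hK _) ?_
    rw [inter_iUnion]
    exact LocDet.iUnion h C hC hI n _ fun i => hI _ _ (hK _) (hK _)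

theorem LocDet.biUnion [T1Space N] (h : LocEuc d N) (C : Set N → Prop)
    (hC : ∀ K, C K → IsClosed K ∧ LocDet R d K) (hI : ∀ K L, C K → C L → C (K ∩ L))
    {ι : Type*} (s : Finset ι) (K : ι → Set N) (hK : ∀ i ∈ s, C (K i)) :
    LocDet R d (⋃ i ∈ s, K i) := by
  have e : ⋃ i ∈ s, K i = ⋃ i : Fin s.card, K (s.equivFin.symm i) := by
    ext x
    simp only [mem_iUnion]
    constructor
    · rintro ⟨i, hi, hx⟩
      exact ⟨s.equivFin ⟨i, hi⟩, by simpa using hx⟩
    · rintro ⟨i, hx⟩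
      exact ⟨_, (s.equivFin.symm i).2, hx⟩
  rw [e]
  exact LocDet.iUnion h C hC hI _ _ fun i => hK _ (s.equivFin.symm i).2

theorem mem_RB_image_convex [T2Space N] {e : C(Fin d → ℝ, N)} (he : IsOpenEmbedding e)
    {K : Set (Fin d → ℝ)} (hK : Convex ℝ K) (hc : IsCompact K) {x : Fin d → ℝ} (hx : x ∈ K)
    {k : ℕ} {z : Ch R N (k + 1)} (hz : bd R N k z ∈ CIn R (e '' K)ᶜ k)
    (h : z ∈ RB R {e x} (k + 1)) : z ∈ RB R (e '' K) (k + 1) := by
  have hcl : IsClosed (e '' K) := (hc.image e.continuous).isClosed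
  obtain ⟨z', h1, h2⟩ := exists_push_sub_mem_RB he hcl (image_subset_range _ _) hz
  rw [preimage_image_eq _ he.injective] at h1
  have h3 : push R e (k + 1) z' ∈ RB R {e x} (k + 1) := by
    simpa using sub_mem h (RB_mono (singleton_subset_iff.2 (mem_image_of_mem e hx)) h2)
  have h4 := mem_RB_of_push he isClosed_singleton (by simp) h3
  have h5 := mem_RB_convex hK hc.isBounded hx h1 (RB_mono (by simp) h4)
  simpa using add_mem h2 (push_mem_RB e (preimage_image_eq _ he.injective).subset h5)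

theorem LocDet.image_convex [T2Space N] {e : C(Fin d → ℝ, N)} (he : IsOpenEmbedding e)
    {K : Set (Fin d → ℝ)} (hK : Convex ℝ K) (hc : IsCompact K) : LocDet R d (e '' K) := by
  rcases K.eq_empty_or_nonempty with rfl | ⟨x, hx⟩
  · simpa using LocDet.empty
  · intro k _ z hz hloc
    exact mem_RB_image_convex he hK hc hx hz (hloc _ (mem_image_of_mem e hx))

theorem LocDet.of_subset_range [T2Space N] (h : LocEuc d N) {e : C(Fin d → ℝ, N)}
    (he : IsOpenEmbedding e) {K : Set N} (hc : IsCompact K) (hK : K ⊆ range e) :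
    LocDet R d K := by
  intro k hk z hz hloc
  have hc' : IsCompact (e ⁻¹' K) := he.isInducing.isCompact_preimage' hc hK
  have : ∀ x ∈ e ⁻¹' K, ∃ r > 0, e '' Metric.closedBall x r ⊆ (carrier (bd R N k z))ᶜ := by
    intro x hx
    have : e ⁻¹' (carrier (bd R N k z))ᶜ ∈ nhds x :=
      ((isCompact_carrier _).isClosed.isOpen_compl.preimage e.continuous).mem_nhds fun h' =>
        mem_CIn_iff_carrier.1 hz h' hx
    obtain ⟨r, hr, h'⟩ := Metric.nhds_basis_closedBall.mem_iff.1 this
    exact ⟨r, hr, image_subset_iff.2 h'⟩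
  choose! r hr hr' using this
  obtain ⟨s, hs, hcov⟩ := hc'.elim_nhds_subcover (fun x => Metric.closedBall x (r x))
    fun x hx => Metric.closedBall_mem_nhds x (hr x hx)
  have hsub : K ⊆ ⋃ x ∈ s, e '' Metric.closedBall x (r x) := by
    intro y hy
    obtain ⟨x, rfl⟩ := hK hy
    obtain ⟨x', hx', h'⟩ := mem_iUnion₂.1 (hcov (a := x) hy)
    exact mem_iUnion₂.2 ⟨x', hx', mem_image_of_mem e h'⟩
  have hL := LocDet.biUnion (R := R) h (fun L => ∃ L', Convex ℝ L' ∧ IsCompact L' ∧ L = e '' L')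
    (by
      rintro _ ⟨L, h1, h2, rfl⟩
      exact ⟨(h2.image e.continuous).isClosed, LocDet.image_convex he h1 h2⟩)
    (by
      rintro _ _ ⟨L, h1, h2, rfl⟩ ⟨L', h1', h2', rfl⟩
      exact ⟨L ∩ L', h1.inter h1', h2.inter h2', (image_inter he.injective).symm⟩)
    s (fun x => e '' Metric.closedBall x (r x))
    fun x _ => ⟨_, convex_closedBall x _, isCompact_closedBall x _, rfl⟩
  have hball : ∀ x ∈ s, bd R N k z ∈ CIn R (e '' Metric.closedBall x (r x))ᶜ k := fun x hx =>
    mem_CIn_iff_carrier.2 (subset_compl_comm.1 (hr' x (hs x hx)))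
  refine RB_mono hsub (hL k hk z ?_ fun y hy => ?_)
  · rw [mem_CIn_iff_carrier, subset_compl_comm, iUnion₂_subset_iff]
    exact fun x hx => hr' x (hs x hx)
  · obtain ⟨x, hx, hy⟩ := mem_iUnion₂.1 hy
    exact RB_mono (singleton_subset_iff.2 hy) (mem_RB_image_convex he (convex_closedBall x _)
      (isCompact_closedBall x _) (Metric.mem_closedBall_self (hr x (hs x hx)).le) (hball x hx)
      (hloc _ (hs x hx)))

theorem LocEuc.exists_nhds (h : LocEuc d N) (p : N) : ∃ e : C(Fin d → ℝ, N), IsOpenEmbedding e ∧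
    ∃ x, e '' Metric.closedBall x 1 ∈ nhds p := by
  obtain ⟨e, he, x, rfl⟩ := h p
  exact ⟨e, he, x, he.isOpenMap.image_mem_nhds (Metric.closedBall_mem_nhds x one_pos)⟩

theorem LocDet.of_isCompact [T2Space N] (h : LocEuc d N) {K : Set N} (hc : IsCompact K) :
    LocDet R d K := by
  choose e he x hx using h.exists_nhds
  obtain ⟨s, -, hcov⟩ := hc.elim_nhds_subcover _ fun p _ => hx p
  have : K = ⋃ p ∈ s, K ∩ e p '' Metric.closedBall (x p) 1 := by
    rw [← inter_iUnion₂, inter_eq_left.2 hcov]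
  rw [this]
  refine LocDet.biUnion h
    (fun L => IsCompact L ∧ ∃ e : C(Fin d → ℝ, N), IsOpenEmbedding e ∧ L ⊆ range e) ?_ ?_ s _
    fun p _ => ⟨hc.inter ((isCompact_closedBall _ _).image (e p).continuous), e p, he p,
      inter_subset_right.trans (image_subset_range _ _)⟩
  · rintro L ⟨h1, e, h2, h3⟩
    exact ⟨h1.isClosed, LocDet.of_subset_range h h2 h1 h3⟩
  · rintro L L' ⟨h1, e, h2, h3⟩ ⟨h1', -⟩
    exact ⟨h1.inter h1', e, h2, inter_subset_left.trans h3⟩

theorem Sph.sub_mem {K : Set N} {j : ℕ} (h : Sph (ZMod 2) K j) {z z' : Ch (ZMod 2) N (j + 1)}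
    (hz : bd _ N j z ∈ CIn _ Kᶜ j) (hz' : bd _ N j z' ∈ CIn _ Kᶜ j) (h1 : z ∉ RB _ K (j + 1))
    (h2 : z' ∉ RB _ K (j + 1)) : z - z' ∈ RB _ K (j + 1) := by
  obtain ⟨-, z₀, -, -, hs⟩ := h
  have key : ∀ z, bd _ N j z ∈ CIn _ Kᶜ j → z ∉ RB _ K (j + 1) → z - z₀ ∈ RB _ K (j + 1) := by
    intro z hz h1
    obtain ⟨r, hr⟩ := hs z hz
    have : r = 0 ∨ r = 1 := (by decide : ∀ r : ZMod 2, r = 0 ∨ r = 1) r
    rcases this with rfl | rfl
    · exact absurd (by simpa using hr) h1
    · simpa using hr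
  simpa using _root_.sub_mem (key z hz h1) (key z' hz' h2)

/-- Existence of a mod two class that is locally nontrivial along `K`. -/
def HasFund (d : ℕ) (K : Set N) : Prop :=
  ∃ z : Ch (ZMod 2) N (d + 1), bd _ N d z ∈ CIn _ Kᶜ d ∧ ∀ x ∈ K, z ∉ RB _ {x} (d + 1)

theorem HasFund.union [T2Space N] (h : LocEuc d N) {A B : Set N} (hA : IsCompact A)
    (hB : IsCompact B) (h1 : HasFund d A) (h2 : HasFund d B) : HasFund d (A ∪ B) := by
  obtain ⟨zA, hzA, hA'⟩ := h1
  obtain ⟨zB, hzB, hB'⟩ := h2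
  have h3 : zA - zB ∈ RB _ (A ∩ B) (d + 1) := by
    refine LocDet.of_isCompact h (hA.inter hB) d le_rfl _ ?_ fun x hx => ?_
    · rw [map_sub]
      exact sub_mem (CIn_mono (compl_subset_compl.2 inter_subset_left) _ hzA)
        (CIn_mono (compl_subset_compl.2 inter_subset_right) _ hzB)
    · exact (h.sph x).sub_mem (CIn_mono (compl_subset_compl.2 (singleton_subset_iff.2 hx.1)) _ hzA)
        (CIn_mono (compl_subset_compl.2 (singleton_subset_iff.2 hx.2)) _ hzB) (hA' x hx.1)
        (hB' x hx.2)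
  obtain ⟨w, hw⟩ := mem_RB.1 h3
  rw [compl_inter] at hw
  obtain ⟨u, -, eA, heA, eB, heB, he⟩ := exists_split hA.isClosed.isOpen_compl
    hB.isClosed.isOpen_compl hw hzA (neg_mem hzB) (by rw [map_sub, map_sub, bd_bd]; abel)
  have h4 : zA - eA = zB + eB + bd _ N (d + 1) (w + u) := by
    have : zA = zB + bd _ N (d + 1) w + (zA - zB - bd _ N (d + 1) w) := by abel
    rw [this, he, map_add]; abel
  refine ⟨zA - eA, ?_, ?_⟩
  · rw [compl_union]
    refine mem_CIn_inter ?_ ?_
    · rw [map_sub]; exact sub_mem hzA (bd_mem_CIn heA)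
    · rw [h4, map_add, map_add, bd_bd, add_zero]; exact add_mem hzB (bd_mem_CIn heB)
  · rintro x (hx | hx) hz
    · refine hA' x hx ?_
      simpa using add_mem hz (RB_mono (singleton_subset_iff.2 hx) (mem_RB_of_CIn heA))
    · refine hB' x hx ?_
      rw [h4] at hz
      have := sub_mem (sub_mem hz (bd_mem_RB _ (w + u)))
        (RB_mono (singleton_subset_iff.2 hx) (mem_RB_of_CIn heB))
      rwa [add_sub_cancel_right, add_sub_cancel_right] at this

theorem exists_sph_ball (x : Fin d → ℝ) [Nontrivial R] : ∃ z : Ch R (Fin d → ℝ) (d + 1),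
    bd R _ d z ∈ CIn R (Metric.closedBall x 1)ᶜ d ∧ z ∉ RB R {x} (d + 1) := by
  obtain ⟨-, z₀, hz₀, hinj, -⟩ := sph_point_euc (R := R) x
  obtain ⟨ε, hε, hc⟩ : ∃ ε > 0, Metric.closedBall x ε ⊆ (carrier (bd R _ d z₀))ᶜ :=
    Metric.nhds_basis_closedBall.mem_iff.1
      ((isCompact_carrier _).isClosed.isOpen_compl.mem_nhds fun h =>
        mem_CIn_iff_carrier.1 hz₀ h rfl)
  let g : C(Fin d → ℝ, Fin d → ℝ) := ⟨fun y => x + ε⁻¹ • (y - x), by fun_prop⟩
  let g' : C(Fin d → ℝ, Fin d → ℝ) := ⟨fun y => x + ε • (y - x), by fun_prop⟩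
  have hg : g'.comp g = ContinuousMap.id _ := by
    ext1 y
    simp [g, g', smul_smul, hε.ne']
  refine ⟨push R g _ z₀, ?_, fun h => ?_⟩
  · rw [← push_bd]
    refine push_mem_CIn g (A := carrier _) ?_ (mem_CIn_iff_carrier.2 subset_rfl)
    intro y hy hy'
    refine hc (a := y) ?_ hy
    rw [mem_closedBall_iff_norm] at hy' ⊢
    simp only [g, ContinuousMap.coe_mk, add_sub_cancel_left, norm_smul, norm_inv,
      Real.norm_of_nonneg hε.le] at hy'
    rwa [inv_mul_le_iff₀ hε, mul_one] at hy'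
  · have := push_mem_RB g' (K := {x}) (L := {x}) (fun y hy => by
      simpa [g', hε.ne', sub_eq_zero] using hy) h
    rw [push_push, hg, push_id] at this
    exact one_ne_zero (hinj 1 (by simpa using this))

theorem HasFund.image_ball [T2Space N] {e : C(Fin d → ℝ, N)} (he : IsOpenEmbedding e)
    (x : Fin d → ℝ) : HasFund d (e '' Metric.closedBall x 1) := by
  obtain ⟨z, hz, hz'⟩ := exists_sph_ball (R := ZMod 2) x
  refine ⟨push _ e _ z, ?_, ?_⟩
  · rw [← push_bd]
    refine push_mem_CIn e ?_ hz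
    intro y hy hy'
    apply hy
    rwa [he.injective.mem_set_image] at hy'
  · rintro _ ⟨y, hy, rfl⟩ h
    have h1 := mem_RB_of_push he isClosed_singleton (by simp) h
    have h2 := mem_RB_convex (convex_closedBall x 1) Metric.isBounded_closedBall hy hz
      (RB_mono (by simp) h1)
    exact hz' (RB_mono (by simp) h2)

/-- A compact Hausdorff space locally homeomorphic to `ℝ^d` carries a mod two cycle of degree `d`
that is nontrivial in the local homology at every point. -/
theorem exists_fundamental_cycle [T2Space N] [CompactSpace N] (h : LocEuc d N) :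
    ∃ z : Ch (ZMod 2) N (d + 1), bd _ N d z ∈ CIn _ ∅ d ∧ ∀ x, z ∉ RB _ {x} (d + 1) := by
  have := isCompact_univ.induction_on (s := (univ : Set N))
    (p := fun S => ∃ L, IsCompact L ∧ S ⊆ L ∧ HasFund d L)
    ⟨∅, isCompact_empty, subset_rfl, 0, by simp, by simp⟩
    (by
      rintro s t hst ⟨L, h1, h2, h3⟩
      exact ⟨L, h1, hst.trans h2, h3⟩)
    (by
      rintro s t ⟨L, h1, h2, h3⟩ ⟨L', h1', h2', h3'⟩
      exact ⟨L ∪ L', h1.union h1', union_subset_union h2 h2', h3.union h h1 h1' h3'⟩)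
    (by
      intro p _
      obtain ⟨e, he, x, hx⟩ := h.exists_nhds p
      exact ⟨_, mem_nhdsWithin_of_mem_nhds hx, _, (isCompact_closedBall x 1).image e.continuous,
        subset_rfl, HasFund.image_ball he x⟩)
  obtain ⟨L, -, hL, z, hz, hz'⟩ := this
  rw [univ_subset_iff.1 hL, compl_univ] at hz
  exact ⟨z, hz, fun x => hz' x (hL (mem_univ x))⟩

/-- Local degree one: a map that is an open embedding near the only preimage of a point preserves
local nontriviality of cycles. -/
theorem push_notMem_RB {M : Type*} [TopologicalSpace M] [T1Space N] [T1Space M] (f : C(N, M))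
    {U : Set N} (hU : IsOpen U) {p : N} (hp : p ∈ U) (hf : IsOpenEmbedding (U.domRestrict f))
    (hfp : ∀ x, f x = f p → x = p) {k : ℕ} {z : Ch R N (k + 1)}
    (hz : bd R N k z ∈ CIn R {p}ᶜ k) (h : z ∉ RB R {p} (k + 1)) :
    push R f (k + 1) z ∉ RB R {f p} (k + 1) := by
  intro h'
  let ι : C(U, N) := ⟨Subtype.val, continuous_subtype_val⟩
  obtain ⟨z', -, h2⟩ := exists_push_sub_mem_RB (e := ι) hU.isOpenEmbedding_subtypeVal
    isClosed_singleton (by simpa [ι] using hp) hz
  have h3 := push_mem_RB f (L := {f p}) (fun x hx => hfp x hx) h2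
  have h4 : push R (f.comp ι) (k + 1) z' ∈ RB R {f p} (k + 1) := by
    rw [← push_push]
    simpa using sub_mem h' h3
  have h5 := mem_RB_of_push (e := f.comp ι) hf isClosed_singleton
    (singleton_subset_iff.2 ⟨⟨p, hp⟩, rfl⟩) h4
  have h6 := push_mem_RB ι (L := {p}) (fun x hx => by
    change f (ι x) = f p
    rw [show ι x = p from hx]) h5
  exact h (by simpa using add_mem h2 h6)

end Pool.Agent.Shared.H72Sing
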