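import Pool.Agent.Shared.H72Sing.Subdiv

/-!
Relative cycles and boundaries `H(X | K) = H(X, X ∖ K)` at chain level: Mayer-Vietoris,
excision, and the local homology of Euclidean space.
-/

namespace Pool.Agent.Shared.H72Sing

open Finsupp Set

variable {R : Type*} [CommRing R] {X Y : Type*} [TopologicalSpace X] [TopologicalSpace Y]

/-- Chains that are boundaries modulo chains in the complement of `K`. -/
noncomputable def RB (R : Type*) [CommRing R] (K : Set X) (k : ℕ) : Submodule R (Ch R X k) :=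
  CIn R Kᶜ k ⊔ LinearMap.range (bd R X k)

theorem mem_RB {K : Set X} {k : ℕ} {z : Ch R X k} :
    z ∈ RB R K k ↔ ∃ w, z - bd R X k w ∈ CIn R Kᶜ k := by
  rw [RB, Submodule.mem_sup]
  constructor
  · rintro ⟨c, hc, _, ⟨w, rfl⟩, rfl⟩
    exact ⟨w, by simpa using hc⟩
  · rintro ⟨w, hw⟩
    exact ⟨_, hw, _, ⟨w, rfl⟩, by simp⟩

theorem bd_mem_RB (K : Set X) {k : ℕ} (w : Ch R X (k + 1)) : bd R X k w ∈ RB R K k :=
  Submodule.mem_sup_right ⟨w, rfl⟩

theorem mem_RB_of_CIn {K : Set X} {k : ℕ} {z : Ch R X k} (hz : z ∈ CIn R Kᶜ k) : z ∈ RB R K k :=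
  Submodule.mem_sup_left hz

theorem RB_mono {K L : Set X} (h : K ⊆ L) {k : ℕ} {z : Ch R X k} (hz : z ∈ RB R L k) :
    z ∈ RB R K k := by
  obtain ⟨w, hw⟩ := mem_RB.1 hz
  exact mem_RB.2 ⟨w, CIn_mono (compl_subset_compl.2 h) k hw⟩

theorem mem_RB_empty {k : ℕ} (z : Ch R X k) : z ∈ RB R ∅ k :=
  mem_RB_of_CIn (by rw [compl_empty]; exact mem_CIn_univ z)

theorem push_mem_RB (f : C(X, Y)) {K : Set X} {L : Set Y} (h : f ⁻¹' L ⊆ K) {k : ℕ}
    {z : Ch R X k} (hz : z ∈ RB R K k) : push R f k z ∈ RB R L k := by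
  obtain ⟨w, hw⟩ := mem_RB.1 hz
  refine mem_RB.2 ⟨push R f (k + 1) w, ?_⟩
  rw [← push_bd, ← map_sub]
  exact push_mem_CIn f (A := Kᶜ) (B := Lᶜ) (fun x hx hx' => hx (h hx')) hw

theorem sub_sd_pow_mem_RB {K : Set X} {k : ℕ} {z : Ch R X (k + 1)}
    (hz : bd R X k z ∈ CIn R Kᶜ k) (N : ℕ) : z - (sd R X (k + 1) ^ N) z ∈ RB R K (k + 1) := by
  refine mem_RB.2 ⟨shN R X (k + 1) N z, ?_⟩
  rw [bd_shN]
  simpa using shN_mem_CIn N hz

theorem mv_glue {A B : Set X} (hA : IsClosed A) (hB : IsClosed B) {k : ℕ} {z : Ch R X k}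
    {wA wB : Ch R X (k + 1)} (h1 : z - bd R X k wA ∈ CIn R Aᶜ k) (h2 : z - bd R X k wB ∈ CIn R Bᶜ k)
    (h : wA - wB ∈ RB R (A ∩ B) (k + 1)) : z ∈ RB R (A ∪ B) k := by
  obtain ⟨u, hu⟩ := mem_RB.1 h
  rw [compl_inter] at hu
  obtain ⟨u', -, eA, heA, eB, heB, he⟩ := exists_split hA.isOpen_compl hB.isOpen_compl hu
    (neg_mem h1) h2 (by rw [map_sub, map_sub, bd_bd]; abel)
  refine mem_RB.2 ⟨wA - eA, ?_⟩
  rw [compl_union]
  refine mem_CIn_inter ?_ ?_
  · have : z - bd R X k (wA - eA) = (z - bd R X k wA) + bd R X k eA := by rw [map_sub]; abel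
    rw [this]
    exact add_mem h1 (bd_mem_CIn heA)
  · have h3 : wA - eA = wB + eB + bd R X (k + 1) u + bd R X (k + 1) u' := by
      have : wA = wB + bd R X (k + 1) u + (wA - wB - bd R X (k + 1) u) := by abel
      rw [this, he]; abel
    have : z - bd R X k (wA - eA) = (z - bd R X k wB) - bd R X k eB := by
      rw [h3, map_add, map_add, map_add, bd_bd, bd_bd]; abel
    rw [this]
    exact sub_mem h2 (bd_mem_CIn heB)

theorem mv_conn {A B : Set X} (hA : IsClosed A) (hB : IsClosed B) {k : ℕ}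
    {w : Ch R X (k + 2)} (hw : bd R X (k + 1) w ∈ CIn R (A ∩ B)ᶜ (k + 1)) :
    ∃ w', w - w' ∈ RB R (A ∩ B) (k + 2) ∧ ∃ cA ∈ CIn R Aᶜ (k + 1), ∃ cB ∈ CIn R Bᶜ (k + 1),
      bd R X (k + 1) w' = cA + cB ∧ bd R X k cA ∈ CIn R (A ∪ B)ᶜ k := by
  have hw' := hw
  rw [compl_inter] at hw'
  obtain ⟨N, a, ha, b, hb, h⟩ := exists_sd_pow_split hA.isOpen_compl hB.isOpen_compl hw'
  refine ⟨_, sub_sd_pow_mem_RB hw N, a, ha, b, hb, by rw [bd_sd_pow, h], ?_⟩
  rw [compl_union]
  refine mem_CIn_inter (bd_mem_CIn ha) ?_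
  have h0 : bd R X k a + bd R X k b = 0 := by
    rw [← map_add, ← h, ← bd_sd_pow, bd_bd]
  rw [eq_neg_of_add_eq_zero_left h0]
  exact neg_mem (bd_mem_CIn hb)

/-- Vanishing of `H(X | K)` in all degrees. -/
def Acyc (R : Type*) [CommRing R] (K : Set X) : Prop :=
  ∀ k (z : Ch R X (k + 1)), bd R X k z ∈ CIn R Kᶜ k → z ∈ RB R K (k + 1)

theorem mv_inj {A B : Set X} (hA : Acyc R A) (hB : Acyc R B) {k : ℕ} {w : Ch R X (k + 1)}
    {cA cB : Ch R X k} (h1 : cA ∈ CIn R Aᶜ k) (h2 : cB ∈ CIn R Bᶜ k) (hw : bd R X k w = cA + cB)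
    (h : cA ∈ RB R (A ∪ B) k) : w ∈ RB R (A ∩ B) (k + 1) := by
  obtain ⟨u, hu⟩ := mem_RB.1 h
  have e1 : u ∈ RB R A (k + 1) := hA k u (by
    have : bd R X k u = cA - (cA - bd R X k u) := by abel
    rw [this]
    exact sub_mem h1 (CIn_mono (compl_subset_compl.2 subset_union_left) k hu))
  have e2 : w - u ∈ RB R B (k + 1) := hB k _ (by
    have : bd R X k (w - u) = cB + (cA - bd R X k u) := by rw [map_sub, hw]; abel
    rw [this]
    exact add_mem h2 (CIn_mono (compl_subset_compl.2 subset_union_right) k hu))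
  simpa using add_mem (RB_mono inter_subset_left e1) (RB_mono inter_subset_right e2)

/-- `H(X | K)` vanishes above degree `j` and is free of rank one in degree `j`. -/
def Sph (R : Type*) [CommRing R] (K : Set X) (j : ℕ) : Prop :=
  (∀ k, j < k → ∀ z : Ch R X (k + 1), bd R X k z ∈ CIn R Kᶜ k → z ∈ RB R K (k + 1)) ∧
  ∃ z₀ : Ch R X (j + 1), bd R X j z₀ ∈ CIn R Kᶜ j ∧ (∀ r : R, r • z₀ ∈ RB R K (j + 1) → r = 0) ∧
    ∀ z : Ch R X (j + 1), bd R X j z ∈ CIn R Kᶜ j → ∃ r : R, z - r • z₀ ∈ RB R K (j + 1)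

theorem Sph.inter {A B : Set X} (hA : IsClosed A) (hB : IsClosed B) (hA' : Acyc R A)
    (hB' : Acyc R B) {j : ℕ} (h : Sph R (A ∪ B) j) : Sph R (A ∩ B) (j + 1) := by
  obtain ⟨ha, z₀, hz₀, hinj, hsurj⟩ := h
  constructor
  · rintro (_ | k) hk w hw
    · omega
    obtain ⟨w', hw', cA, h1, cB, h2, h3, h4⟩ := mv_conn hA hB hw
    simpa using add_mem hw' (mv_inj hA' hB' h1 h2 h3 (ha k (by omega) cA h4))
  · obtain ⟨wA, hwA⟩ := mem_RB.1 (hA' j z₀ (CIn_mono (compl_subset_compl.2 subset_union_left) j hz₀))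
    obtain ⟨wB, hwB⟩ := mem_RB.1 (hB' j z₀ (CIn_mono (compl_subset_compl.2 subset_union_right) j hz₀))
    have hbd : bd R X (j + 1) (wA - wB) = -(z₀ - bd R X (j + 1) wA) + (z₀ - bd R X (j + 1) wB) := by
      rw [map_sub]; abel
    refine ⟨wA - wB, ?_, fun r hr => hinj r ?_, fun w hw => ?_⟩
    · rw [hbd]
      exact add_mem (neg_mem (CIn_mono (compl_subset_compl.2 inter_subset_left) _ hwA))
        (CIn_mono (compl_subset_compl.2 inter_subset_right) _ hwB)
    · refine mv_glue hA hB (wA := r • wA) (wB := r • wB) ?_ ?_ (by rwa [← smul_sub])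
      · rw [map_smul, ← smul_sub]; exact Submodule.smul_mem _ _ hwA
      · rw [map_smul, ← smul_sub]; exact Submodule.smul_mem _ _ hwB
    · obtain ⟨w', hw', cA, h1, cB, h2, h3, h4⟩ := mv_conn hA hB hw
      obtain ⟨r, hr⟩ := hsurj cA h4
      refine ⟨-r, ?_⟩
      have : w' + r • (wA - wB) ∈ RB R (A ∩ B) (j + 2) := by
        refine mv_inj hA' hB' (cA := cA - r • (z₀ - bd R X (j + 1) wA))
          (cB := cB + r • (z₀ - bd R X (j + 1) wB)) (sub_mem h1 (Submodule.smul_mem _ _ hwA))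
          (add_mem h2 (Submodule.smul_mem _ _ hwB)) ?_ ?_
        · rw [map_add, map_smul, h3, hbd]; module
        · have : cA - r • (z₀ - bd R X (j + 1) wA) = cA - r • z₀ + r • bd R X (j + 1) wA := by
            module
          rw [this]
          exact add_mem hr (Submodule.smul_mem _ _ (bd_mem_RB _ _))
      have e : w - -r • (wA - wB) = (w - w') + (w' + r • (wA - wB)) := by module
      rw [e]
      exact add_mem hw' this

/-- A homotopy from the identity preserving the complement of `K` does not change classes. -/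
theorem sub_push_mem_RB {K : Set X} (H : C(X × unitInterval, X)) (g : C(X, X))
    (h0 : ∀ x, H (x, 0) = x) (h1 : ∀ x, H (x, 1) = g x) (hK : ∀ x ∉ K, ∀ t, H (x, t) ∉ K)
    {k : ℕ} {z : Ch R X (k + 1)} (hz : bd R X k z ∈ CIn R Kᶜ k) :
    z - push R g (k + 1) z ∈ RB R K (k + 1) := by
  obtain ⟨P, hP, hP'⟩ := exists_prism (R := R) H (ContinuousMap.id X) g h0 h1
  refine mem_RB.2 ⟨-P (k + 1) z, ?_⟩
  rw [map_neg, hP, push_id]
  convert neg_mem (hP' Kᶜ Kᶜ hK k _ hz) using 1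
  abel

theorem exists_bd_eq_of_contraction (H : C(X × unitInterval, X)) (x₀ : X)
    (h0 : ∀ x, H (x, 0) = x) (h1 : ∀ x, H (x, 1) = x₀) {k : ℕ} {z : Ch R X (k + 1)}
    (hz : bd R X k z = 0) : ∃ w, bd R X (k + 1) w = z := by
  obtain ⟨P, hP, -⟩ := exists_prism (R := R) H (ContinuousMap.id X) (.const X x₀) h0 h1
  refine ⟨lm R (fun _ => ContinuousMap.const (Sx (k + 2)) x₀) z - P (k + 1) z, ?_⟩
  rw [map_sub, bd_const, hP, hz, push_id]
  simp

instance : IsEmpty (Sx 0) := ⟨fun x => by have := x.2.2; simp at this⟩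

theorem sph_univ_of_contraction (H : C(X × unitInterval, X)) (x₀ : X)
    (h0 : ∀ x, H (x, 0) = x) (h1 : ∀ x, H (x, 1) = x₀) : Sph R (univ : Set X) 0 := by
  let e : C(Sx 0, X) := .const _ x₀
  have he : ∀ τ : C(Sx 0, X), τ = e := fun τ => by ext x; exact isEmptyElim x
  have hbd : bd R X 0 (single (.const _ x₀) 1) = single e 1 := by
    rw [bd_single]; simp [he (ContinuousMap.comp _ _)]
  refine ⟨?_, single (.const _ x₀) 1, mem_CIn_zero _ _, fun r hr => ?_, fun z _ => ?_⟩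
  · rintro (_ | k) hk z hz
    · omega
    rw [compl_univ] at hz
    obtain ⟨w, rfl⟩ := exists_bd_eq_of_contraction H x₀ h0 h1 (CIn_empty k hz)
    exact bd_mem_RB _ _
  · obtain ⟨w, hw⟩ := mem_RB.1 hr
    rw [compl_univ] at hw
    have := congrArg (bd R X 0) (CIn_empty 0 hw)
    rw [map_sub, bd_bd, map_smul, hbd, map_zero, sub_zero] at this
    simpa using this
  · refine ⟨bd R X 0 z e, ?_⟩
    obtain ⟨w, hw⟩ := exists_bd_eq_of_contraction (R := R) H x₀ h0 h1
      (z := z - bd R X 0 z e • single (.const _ x₀) 1) (by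
        rw [map_sub, map_smul, hbd]
        ext τ
        rw [he τ]
        simp)
    rw [← hw]
    exact bd_mem_RB _ _

theorem acyc_halfspace {d : ℕ} (j : Fin d) (s : ℝ) (hs : s * s = 1) :
    Acyc R {x : Fin d → ℝ | (∀ i, j < i → x i = 0) ∧ 0 ≤ s * x j} := by
  intro k z hz
  obtain ⟨M, hM⟩ := ((isCompact_carrier z).image
    (f := fun x : Fin d → ℝ => s * x j) (by fun_prop)).bddAbove
  set l := |M| + 1
  have hl : 0 < l := by positivity
  have key := sub_push_mem_RB (R := R)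
    (H := ⟨fun p => p.1 - ((p.2 : ℝ) * l * s) • Pi.single j 1, by fun_prop⟩)
    (g := ⟨fun x => x - (l * s) • Pi.single j 1, by fun_prop⟩) (by simp) (by simp) ?_ hz
  · have : push R ⟨fun x : Fin d → ℝ => x - (l * s) • Pi.single j 1, by fun_prop⟩ (k + 1) z ∈
        CIn R {x : Fin d → ℝ | (∀ i, j < i → x i = 0) ∧ 0 ≤ s * x j}ᶜ (k + 1) := by
      refine push_mem_CIn _ (A := carrier z) ?_ (mem_CIn_iff_carrier.2 subset_rfl)
      rintro x hx ⟨-, h2⟩
      have h3 : s * x j ≤ M := hM ⟨x, hx, rfl⟩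
      simp only [ContinuousMap.coe_mk, Pi.sub_apply, Pi.single_eq_same, Pi.smul_apply,
        smul_eq_mul, mul_one] at h2
      have : s * (x j - l * s) = s * x j - l := by linear_combination (-l) * hs
      have h4 := le_abs_self M
      simp only [l] at this
      linarith
    simpa using add_mem key (mem_RB_of_CIn this)
  · rintro x hx t ⟨h1, h2⟩
    refine hx ⟨fun i hi => ?_, ?_⟩
    · simpa [Pi.single_eq_of_ne hi.ne'] using h1 i hi
    · simp only [ContinuousMap.coe_mk, Pi.sub_apply, Pi.single_eq_same, Pi.smul_apply,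
        smul_eq_mul, mul_one] at h2
      have : s * (x j - t * l * s) = s * x j - t * l := by linear_combination (-(t * l)) * hs
      have h4 : 0 ≤ (t : ℝ) * l := mul_nonneg t.2.1 hl.le
      linarith

theorem sph_subspace {d : ℕ} : ∀ j m, m + j = d →
    Sph R {x : Fin d → ℝ | ∀ i : Fin d, m ≤ i → x i = 0} j
  | 0, m, h => by
    have : {x : Fin d → ℝ | ∀ i : Fin d, m ≤ i → x i = 0} = univ :=
      eq_univ_of_forall fun x (i : Fin d) hi => by have := i.2; omega
    rw [this]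
    exact sph_univ_of_contraction ⟨fun p => (1 - (p.2 : ℝ)) • p.1, by fun_prop⟩ 0 (by simp)
      (by simp)
  | j + 1, m, h => by
    have ih := sph_subspace (d := d) j (m + 1) (by omega)
    have hm : m < d := by omega
    let i₀ : Fin d := ⟨m, hm⟩
    have hcl : ∀ s : ℝ, IsClosed {x : Fin d → ℝ | (∀ i, i₀ < i → x i = 0) ∧ 0 ≤ s * x i₀} := by
      intro s
      simp only [ofPred_and, ofPred_forall]
      exact (isClosed_iInter fun i => isClosed_iInter fun _ =>
        isClosed_eq (continuous_apply i) continuous_const).inter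
        (isClosed_le continuous_const (by fun_prop))
    have := Sph.inter (hcl 1) (hcl (-1)) (acyc_halfspace i₀ 1 (by norm_num))
      (acyc_halfspace i₀ (-1) (by norm_num)) (j := j) (R := R) (by
        convert ih using 1
        ext x
        simp only [mem_union, mem_ofPred_eq, ← and_or_left, one_mul, neg_mul, Left.nonneg_neg_iff,
          le_total, and_true]
        rfl)
    convert this using 1
    ext x
    simp only [mem_inter_iff, mem_ofPred_eq, one_mul, neg_mul, Left.nonneg_neg_iff]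
    constructor
    · intro hx
      have h0 : x i₀ = 0 := hx i₀ le_rfl
      exact ⟨⟨fun i hi => hx i (le_of_lt hi), h0.ge⟩, fun i hi => hx i (le_of_lt hi), h0.le⟩
    · rintro ⟨⟨h1, h2⟩, -, h3⟩ i hi
      rcases eq_or_lt_of_le hi with h4 | h4
      · have : i = i₀ := Fin.ext h4.symm
        rw [this]; exact le_antisymm h3 h2
      · exact h1 i h4

theorem sph_zero (d : ℕ) : Sph R ({0} : Set (Fin d → ℝ)) d := by
  convert sph_subspace (R := R) (d := d) d 0 (by simp) using 1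
  ext x
  simp [funext_iff]

/-- Excision. -/
theorem excision {K V : Set X} (hK : IsClosed K) (hV : IsOpen V) (hKV : K ⊆ V) {k : ℕ}
    {z : Ch R X k} (hz : z ∈ CIn R V k) (h : z ∈ RB R K k) :
    ∃ w ∈ CIn R V (k + 1), z - bd R X k w ∈ CIn R (V ∩ Kᶜ) k := by
  obtain ⟨w, hw⟩ := mem_RB.1 h
  have hu : V ∪ Kᶜ = univ := by
    rw [eq_univ_iff_forall]
    intro x
    by_cases hx : x ∈ K
    exacts [Or.inl (hKV hx), Or.inr hx]
  obtain ⟨u, -, eA, heA, eB, heB, he⟩ := exists_split hV hK.isOpen_compl (e := w)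
    (by rw [hu]; exact mem_CIn_univ w) hz (neg_mem hw) (by abel)
  refine ⟨eA, heA, mem_CIn_inter (sub_mem hz (bd_mem_CIn heA)) ?_⟩
  have : z - bd R X k eA = (z - bd R X k w) + bd R X k eB := by
    rw [he, map_add, map_add, bd_bd]; abel
  rw [this]
  exact add_mem hw (bd_mem_CIn heB)

theorem mem_RB_of_push {e : C(Y, X)} (he : Topology.IsOpenEmbedding e) {K : Set X}
    (hK : IsClosed K) (hKe : K ⊆ range e) {k : ℕ} {z : Ch R Y k}
    (h : push R e k z ∈ RB R K k) : z ∈ RB R (e ⁻¹' K) k := by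
  obtain ⟨w, hw, hw'⟩ := excision hK he.isOpen_range hKe
    (push_mem_CIn e (mapsTo_univ_iff.2 fun y => mem_range_self y) (mem_CIn_univ z)) h
  obtain ⟨w', rfl⟩ := exists_push_eq he.isEmbedding hw
  rw [← push_bd, ← map_sub] at hw'
  exact mem_RB.2 ⟨w', mem_CIn_of_push he.injective (CIn_mono inter_subset_right k hw')⟩

theorem exists_push_sub_mem_RB {e : C(Y, X)} (he : Topology.IsOpenEmbedding e) {K : Set X}
    (hK : IsClosed K) (hKe : K ⊆ range e) {k : ℕ} {z : Ch R X (k + 1)}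
    (hz : bd R X k z ∈ CIn R Kᶜ k) :
    ∃ z' : Ch R Y (k + 1), bd R Y k z' ∈ CIn R (e ⁻¹' K)ᶜ k ∧
      z - push R e (k + 1) z' ∈ RB R K (k + 1) := by
  have hu : range e ∪ Kᶜ = univ := by
    rw [eq_univ_iff_forall]
    intro x
    by_cases hx : x ∈ K
    exacts [Or.inl (hKe hx), Or.inr hx]
  obtain ⟨N, a, ha, b, hb, h⟩ := exists_sd_pow_split he.isOpen_range hK.isOpen_compl (z := z)
    (by rw [hu]; exact mem_CIn_univ z)
  obtain ⟨z', rfl⟩ := exists_push_eq he.isEmbedding ha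
  refine ⟨z', mem_CIn_of_push he.injective (B := Kᶜ) ?_, ?_⟩
  · rw [push_bd, eq_sub_of_add_eq h.symm, map_sub, bd_sd_pow]
    exact sub_mem (sd_pow_mem_CIn N hz) (bd_mem_CIn hb)
  · have := add_mem (sub_sd_pow_mem_RB hz N) (mem_RB_of_CIn hb)
    rw [h] at this
    convert this using 1
    abel

theorem Sph.of_preimage {e : C(Y, X)} (he : Topology.IsOpenEmbedding e) {K : Set X}
    (hK : IsClosed K) (hKe : K ⊆ range e) {j : ℕ} (h : Sph R (e ⁻¹' K) j) : Sph R K j := by
  obtain ⟨ha, z₀, hz₀, hinj, hsurj⟩ := h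
  refine ⟨fun k hk z hz => ?_, push R e (j + 1) z₀, ?_, fun r hr => hinj r ?_, fun z hz => ?_⟩
  · obtain ⟨z', h1, h2⟩ := exists_push_sub_mem_RB he hK hKe hz
    simpa using add_mem h2 (push_mem_RB e subset_rfl (ha k hk z' h1))
  · rw [← push_bd]
    exact push_mem_CIn e (fun _ h => h) hz₀
  · rw [← map_smul] at hr
    exact mem_RB_of_push he hK hKe hr
  · obtain ⟨z', h1, h2⟩ := exists_push_sub_mem_RB he hK hKe hz
    obtain ⟨r, hr⟩ := hsurj z' h1
    refine ⟨r, ?_⟩
    simpa using add_mem h2 (push_mem_RB e subset_rfl hr)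

/-- In a normed space, a relative class for a bounded convex set is detected at any point. -/
theorem mem_RB_convex {E : Type*} [NormedAddCommGroup E] [NormedSpace ℝ E] {K : Set E}
    (hK : Convex ℝ K) (hb : Bornology.IsBounded K) {x : E} (hx : x ∈ K) {k : ℕ}
    {z : Ch R E (k + 1)} (hz : bd R E k z ∈ CIn R Kᶜ k) (h : z ∈ RB R {x} (k + 1)) :
    z ∈ RB R K (k + 1) := by
  obtain ⟨w, hw⟩ := mem_RB.1 h
  obtain ⟨ρ, hρ, hKρ⟩ := hb.subset_ball_lt 0 x
  obtain ⟨ε, hε, hc⟩ : ∃ ε > 0, ∀ y ∈ carrier (z - bd R E (k + 1) w), ε ≤ ‖y - x‖ := by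
    have : (carrier (z - bd R E (k + 1) w))ᶜ ∈ nhds x :=
      (isCompact_carrier _).isClosed.isOpen_compl.mem_nhds fun h =>
        mem_CIn_iff_carrier.1 hw h rfl
    obtain ⟨ε, hε, h⟩ := Metric.mem_nhds_iff.1 this
    refine ⟨ε, hε, fun y hy => not_lt.1 fun h' => h (a := y) ?_ hy⟩
    rwa [Metric.mem_ball, dist_eq_norm]
  set l := ρ / ε
  have hl : 0 < l := by positivity
  let g : C(E, E) := ⟨fun y => y + l • (y - x), by fun_prop⟩
  have key := sub_push_mem_RB (R := R)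
    (H := ⟨fun p => p.1 + ((p.2 : ℝ) * l) • (p.1 - x), by fun_prop⟩) (g := g) (by simp)
    (by simp [g]) ?_ hz
  · have h1 : push R g (k + 1) (z - bd R E (k + 1) w) ∈ CIn R Kᶜ (k + 1) := by
      refine push_mem_CIn _ (A := carrier _) ?_ (mem_CIn_iff_carrier.2 subset_rfl)
      intro y hy hy'
      have h2 := hKρ hy'
      rw [Metric.mem_ball, dist_eq_norm] at h2
      have h3 : g y - x = (1 + l) • (y - x) := by simp only [g, ContinuousMap.coe_mk]; module
      rw [h3, norm_smul, Real.norm_of_nonneg (by positivity)] at h2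
      have h4 := hc y hy
      have h5 : l * ε = ρ := div_mul_cancel₀ _ hε.ne'
      nlinarith
    have h2 := add_mem (add_mem key (mem_RB_of_CIn h1)) (bd_mem_RB K (push R g (k + 2) w))
    rw [map_sub, push_bd] at h2
    simpa using h2
  · intro y hy t hy'
    apply hy
    have ht : 0 ≤ (t : ℝ) * l := mul_nonneg t.2.1 hl.le
    have := hK.add_smul_sub_mem hx hy' (t := (1 + t * l)⁻¹)
      ⟨by positivity, inv_le_one_of_one_le₀ (by linarith)⟩
    convert this using 1
    simp only [ContinuousMap.coe_mk]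
    have h3 : y + ((t : ℝ) * l) • (y - x) - x = (1 + t * l) • (y - x) := by module
    rw [h3, smul_smul, inv_mul_cancel₀ (by positivity), one_smul]
    abel

end Pool.Agent.Shared.H72Sing
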