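import Pool.Agent.Shared.H72Sing.Chain

/-!
Barycentric subdivision of singular chains and small chains.
-/

namespace Pool.Agent.Shared.H72Sing

open Finsupp Set

/-- Barycentre of a tuple of points of a simplex. -/
noncomputable def bary (m k : ℕ) (v : Fin (k + 1) → Sx m) : Sx m := aff v stdSimplex.barycenter

theorem aff_bary {m l : ℕ} (u : Fin m → Sx l) (k : ℕ) (v : Fin (k + 1) → Sx m) :
    aff u (bary m k v) = bary l k (aff u ∘ v) :=
  DFunLike.congr_fun (aff_comp_aff u v) _

theorem dist_aff_le {k m : ℕ} (v : Fin k → Sx m) (y : Sx m) {D : ℝ} (h : ∀ i, dist (v i) y ≤ D)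
    (x : Sx k) : dist (aff v x) y ≤ D :=
  (convex_closedBall y.1 D).sum_mem (fun i _ => x.2.1 i) x.2.2 (fun i _ => h i)

theorem dist_bary_le {k m : ℕ} (v : Fin (k + 1) → Sx m) {D : ℝ} (h : ∀ i j, dist (v i) (v j) ≤ D)
    (j : Fin (k + 1)) : dist (v j) (bary m k v) ≤ (k / (k + 1) : ℝ) * D := by
  have hk : (0 : ℝ) < k + 1 := by positivity
  have h1 : (v j).1 - (bary m k v).1 = ∑ i, ((k : ℝ) + 1)⁻¹ • ((v j).1 - (v i).1) := by
    simp only [bary, aff_coe, stdSimplex.barycenter_apply, Fintype.card_fin, smul_sub,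
      Finset.sum_sub_distrib, Finset.sum_const, Finset.card_univ, Nat.cast_add, Nat.cast_one]
    congr 1
    rw [← Nat.cast_smul_eq_nsmul ℝ, smul_smul]
    push_cast
    rw [mul_inv_cancel₀ hk.ne', one_smul]
  rw [Subtype.dist_eq, dist_eq_norm, h1, Fin.sum_univ_succAbove _ j, sub_self, smul_zero, zero_add]
  refine (norm_sum_le _ _).trans ?_
  have : ∀ i : Fin k, ‖((k : ℝ) + 1)⁻¹ • ((v j).1 - (v (j.succAbove i)).1)‖ ≤ ((k : ℝ) + 1)⁻¹ * D := by
    intro i
    rw [norm_smul, Real.norm_of_nonneg (by positivity), ← dist_eq_norm]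
    exact mul_le_mul_of_nonneg_left (h _ _) (by positivity)
  refine (Finset.sum_le_sum fun i _ => this i).trans (le_of_eq ?_)
  simp only [Finset.sum_const, Finset.card_univ, Fintype.card_fin, nsmul_eq_mul]
  ring

variable {R : Type*} [CommRing R] {X Y : Type*} [TopologicalSpace X] [TopologicalSpace Y]

theorem tsd_small {m : ℕ} : ∀ (k : ℕ) (v : Fin k → Sx m) {D : ℝ}, (∀ i j, dist (v i) (v j) ≤ D) →
    tsd R (bary m) k (single v 1) ∈ supported R R {w : Fin k → Sx m |
      (∀ a, w a ∈ range (aff v)) ∧ ∀ a b, dist (w a) (w b) ≤ (k / (k + 1) : ℝ) * D}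
  | 0, v, D, _ => single_mem_supported R _ ⟨fun a => a.elim0, fun a => a.elim0⟩
  | k + 1, v, D, h => by
    have hD : 0 ≤ D := dist_nonneg.trans (h 0 0)
    have hc : (k / (k + 1) : ℝ) * D ≤ (((k + 1 : ℕ) : ℝ) / ((k + 1 : ℕ) + 1) : ℝ) * D := by
      refine mul_le_mul_of_nonneg_right ?_ hD
      push_cast
      rw [div_le_div_iff₀ (by positivity) (by positivity)]
      nlinarith
    rw [tsd_succ_single, tbd_single, map_sum, map_sum]
    refine Submodule.sum_mem _ fun i _ => ?_
    rw [map_smul, map_smul]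
    refine Submodule.smul_mem _ _ ?_
    refine lm_mem_supported (tsd_small k (v ∘ i.succAbove) (D := D) fun a b => h _ _) ?_
    rintro w ⟨hw1, hw2⟩
    have hw1' : ∀ a, w a ∈ range (aff v) := fun a => by
      obtain ⟨x, hx⟩ := hw1 a
      exact ⟨face i x, by rw [← hx, ← aff_comp_face]; rfl⟩
    have hb : ∀ a, dist (w a) (bary m k v) ≤ (k / (k + 1) : ℝ) * D := fun a => by
      obtain ⟨x, hx⟩ := hw1' a
      rw [← hx]
      exact dist_aff_le _ _ (dist_bary_le v h) x
    refine ⟨fun a => ?_, fun a b => ?_⟩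
    · refine Fin.cases ?_ (fun a => ?_) a
      · exact ⟨_, rfl⟩
      · exact hw1' a
    · refine le_trans ?_ hc
      refine Fin.cases ?_ (fun a => ?_) a <;> refine Fin.cases ?_ (fun b => ?_) b
      · simp only [dist_self]; positivity
      · rw [dist_comm]; exact hb b
      · exact hb a
      · exact hw2 a b

theorem tsd_pow_small {m k : ℕ} (N : ℕ) {D : ℝ} {z : TCh R (Sx m) k}
    (hz : z ∈ supported R R {v : Fin k → Sx m | ∀ a b, dist (v a) (v b) ≤ D}) :
    (tsd R (bary m) k ^ N) z ∈ supported R R {v : Fin k → Sx m |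
      ∀ a b, dist (v a) (v b) ≤ (k / (k + 1) : ℝ) ^ N * D} := by
  induction N with
  | zero => simpa using hz
  | succ N ih =>
    rw [pow_succ' (tsd R (bary m) k), Module.End.mul_apply]
    refine mem_of_supported ih fun v hv => supported_mono ?_ (tsd_small k v hv)
    rintro w ⟨-, hw⟩ a b
    rw [pow_succ', mul_assoc]
    exact hw a b

/-- Realisation of tuple chains in a simplex along a singular simplex. -/
noncomputable abbrev realS (R : Type*) [CommRing R] {m : ℕ} (σ : C(Sx m, X)) (k : ℕ) :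
    TCh R (Sx m) k →ₗ[R] Ch R X k := real R (fun _ v => aff v) σ k

theorem realS_tbd {m : ℕ} (σ : C(Sx m, X)) (k : ℕ) (z : TCh R (Sx m) (k + 1)) :
    realS R σ k (tbd R _ k z) = bd R X k (realS R σ (k + 1) z) :=
  real_tbd _ (fun _ v i => aff_comp_face v i) σ k z

theorem realS_tmap {m l : ℕ} (u : Fin m → Sx l) (σ : C(Sx l, X)) (k : ℕ) (z : TCh R (Sx m) k) :
    realS R σ k (tmap R (aff u) k z) = realS R (σ.comp (aff u)) k z :=
  real_tmap _ _ (aff u) (fun _ v => aff_comp_aff u v) σ k z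

theorem realS_vtx {k : ℕ} (σ : C(Sx k, X)) : realS R σ k (single vtx 1) = single σ 1 := by
  simp [realS]

/-- A natural operator on singular chains given by operators on tuple chains. -/
noncomputable def natOp (R : Type*) [CommRing R] (X : Type*) [TopologicalSpace X] {k l : ℕ}
    (F : ∀ m, TCh R (Sx m) k →ₗ[R] TCh R (Sx m) l) : Ch R X k →ₗ[R] Ch R X l :=
  linearCombination R fun σ => realS R σ l (F k (single vtx 1))

theorem natOp_realS {k l : ℕ} (F : ∀ m, TCh R (Sx m) k →ₗ[R] TCh R (Sx m) l)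
    (hF : ∀ m m' (u : Fin m → Sx m') z, tmap R (aff u) l (F m z) = F m' (tmap R (aff u) k z))
    {m : ℕ} (σ : C(Sx m, X)) (z : TCh R (Sx m) k) :
    natOp R X F (realS R σ k z) = realS R σ l (F m z) := by
  refine eq_of_support (f := (natOp R X F).comp (realS R σ k)) (g := (realS R σ l).comp (F m))
    fun v _ => ?_
  simp only [LinearMap.comp_apply, realS, real_single, natOp, linearCombination_single, one_smul]
  rw [← realS_tmap, hF, tmap_single]
  congr 3
  funext j
  simp

theorem natOp_mem_CIn {k l : ℕ} (F : ∀ m, TCh R (Sx m) k →ₗ[R] TCh R (Sx m) l) {A : Set X}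
    {z : Ch R X k} (hz : z ∈ CIn R A k) : natOp R X F z ∈ CIn R A l :=
  mem_of_supported hz fun σ hσ => by
    simp only [natOp, linearCombination_single, one_smul]
    exact real_mem_CIn _ _ _ _ hσ

/-- Barycentric subdivision of singular chains. -/
noncomputable def sd (R : Type*) [CommRing R] (X : Type*) [TopologicalSpace X] (k : ℕ) :
    Ch R X k →ₗ[R] Ch R X k := natOp R X fun m => tsd R (bary m) k

theorem tmap_tsd_bary (k m m' : ℕ) (u : Fin m → Sx m') (z : TCh R (Sx m) k) :
    tmap R (aff u) k (tsd R (bary m) k z) = tsd R (bary m') k (tmap R (aff u) k z) :=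
  tmap_tsd _ _ _ (aff_bary u) k z

theorem sd_realS {m : ℕ} (σ : C(Sx m, X)) (k : ℕ) (z : TCh R (Sx m) k) :
    sd R X k (realS R σ k z) = realS R σ k (tsd R (bary m) k z) :=
  natOp_realS _ (tmap_tsd_bary k) σ z

/-- Homotopy between the identity and subdivision on tuple chains. -/
noncomputable def tsh (R : Type*) [CommRing R] (m k : ℕ) :
    TCh R (Sx m) k →ₗ[R] TCh R (Sx m) (k + 1) :=
  thom R (fun k => LinearMap.id - tsd R (bary m) k) (bary m) k

theorem tmap_tsh (k m m' : ℕ) (u : Fin m → Sx m') (z : TCh R (Sx m) k) :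
    tmap R (aff u) (k + 1) (tsh R m k z) = tsh R m' k (tmap R (aff u) k z) := by
  refine tmap_thom _ _ _ _ _ _ (fun k z => ?_) (aff_bary u) k z
  simp only [LinearMap.sub_apply, LinearMap.id_apply, map_sub, tmap_tsd_bary]

theorem tbd_tsh (m k : ℕ) (z : TCh R (Sx m) (k + 1)) :
    tbd R _ (k + 1) (tsh R m (k + 1) z) =
      z - tsd R (bary m) (k + 1) z - tsh R m k (tbd R _ k z) := by
  refine tbd_thom _ _ ?_ (fun k z => ?_) k z
  · exact LinearMap.ext fun z => sub_self _
  · simp only [LinearMap.sub_apply, LinearMap.id_apply, map_sub, tbd_tsd]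

/-- Homotopy between the identity and subdivision on singular chains. -/
noncomputable def sh (R : Type*) [CommRing R] (X : Type*) [TopologicalSpace X] (k : ℕ) :
    Ch R X k →ₗ[R] Ch R X (k + 1) := natOp R X fun m => tsh R m k

theorem sh_realS {m : ℕ} (σ : C(Sx m, X)) (k : ℕ) (z : TCh R (Sx m) k) :
    sh R X k (realS R σ k z) = realS R σ (k + 1) (tsh R m k z) :=
  natOp_realS _ (tmap_tsh k) σ z

theorem bd_sd (k : ℕ) (z : Ch R X (k + 1)) :
    bd R X k (sd R X (k + 1) z) = sd R X k (bd R X k z) := by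
  refine eq_of_support (f := (bd R X k).comp (sd R X (k + 1))) (g := (sd R X k).comp (bd R X k))
    fun σ _ => ?_
  simp only [LinearMap.comp_apply]
  rw [← realS_vtx, sd_realS, ← realS_tbd, ← realS_tbd, sd_realS, tbd_tsd]

theorem bd_sh (k : ℕ) (z : Ch R X (k + 1)) :
    bd R X (k + 1) (sh R X (k + 1) z) = z - sd R X (k + 1) z - sh R X k (bd R X k z) := by
  refine eq_of_support (f := (bd R X (k + 1)).comp (sh R X (k + 1)))
    (g := LinearMap.id - sd R X (k + 1) - (sh R X k).comp (bd R X k)) fun σ _ => ?_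
  simp only [LinearMap.comp_apply, LinearMap.sub_apply, LinearMap.id_apply]
  rw [← realS_vtx, sh_realS, ← realS_tbd, ← realS_tbd, sd_realS, sh_realS, tbd_tsh, map_sub,
    map_sub]

theorem sd_pow_realS {m : ℕ} (σ : C(Sx m, X)) (k N : ℕ) (z : TCh R (Sx m) k) :
    (sd R X k ^ N) (realS R σ k z) = realS R σ k ((tsd R (bary m) k ^ N) z) := by
  induction N with
  | zero => rfl
  | succ N ih => rw [pow_succ', pow_succ', Module.End.mul_apply, Module.End.mul_apply, ih, sd_realS]

theorem bd_sd_pow (k N : ℕ) (z : Ch R X (k + 1)) :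
    bd R X k ((sd R X (k + 1) ^ N) z) = (sd R X k ^ N) (bd R X k z) := by
  induction N with
  | zero => rfl
  | succ N ih => rw [pow_succ', pow_succ', Module.End.mul_apply, Module.End.mul_apply, bd_sd, ih]

theorem sd_pow_mem_CIn {k : ℕ} (N : ℕ) {A : Set X} {z : Ch R X k} (hz : z ∈ CIn R A k) :
    (sd R X k ^ N) z ∈ CIn R A k := by
  induction N with
  | zero => exact hz
  | succ N ih => rw [pow_succ', Module.End.mul_apply]; exact natOp_mem_CIn _ ih

/-- Homotopy between the identity and iterated subdivision. -/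
noncomputable def shN (R : Type*) [CommRing R] (X : Type*) [TopologicalSpace X] (k N : ℕ) :
    Ch R X k →ₗ[R] Ch R X (k + 1) := ∑ j ∈ Finset.range N, (sh R X k).comp (sd R X k ^ j)

theorem bd_shN (k N : ℕ) (z : Ch R X (k + 1)) :
    bd R X (k + 1) (shN R X (k + 1) N z) =
      z - (sd R X (k + 1) ^ N) z - shN R X k N (bd R X k z) := by
  induction N with
  | zero => simp [shN]
  | succ N ih =>
    simp only [shN, Finset.sum_range_succ, LinearMap.add_apply, map_add, LinearMap.comp_apply] at ih ⊢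
    rw [ih, bd_sh, bd_sd_pow, pow_succ', Module.End.mul_apply]
    abel

theorem shN_mem_CIn {k : ℕ} (N : ℕ) {A : Set X} {z : Ch R X k} (hz : z ∈ CIn R A k) :
    shN R X k N z ∈ CIn R A (k + 1) := by
  rw [shN, LinearMap.sum_apply]
  refine Submodule.sum_mem _ fun j _ => ?_
  rw [LinearMap.comp_apply]
  exact natOp_mem_CIn _ (sd_pow_mem_CIn j hz)

theorem eventually_sd_pow_single {ι : Type*} (U : ι → Set X) (hU : ∀ i, IsOpen (U i)) {k : ℕ}
    (σ : C(Sx (k + 1), X)) (hσ : range σ ⊆ ⋃ i, U i) :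
    ∀ᶠ N in Filter.atTop, (sd R X (k + 1) ^ N) (single σ 1) ∈
      supported R R {τ : C(Sx (k + 1), X) | ∃ i, range τ ⊆ U i} := by
  obtain ⟨δ, hδ, h⟩ := lebesgue_number_lemma_of_metric (c := fun i => σ ⁻¹' U i) isCompact_univ
    (fun i => (hU i).preimage σ.continuous) (fun x _ => by
      simpa using hσ ⟨x, rfl⟩)
  have hc : Filter.Tendsto (fun N : ℕ => (((k + 1 : ℕ) : ℝ) / ((k + 1 : ℕ) + 1) : ℝ) ^ N)
      Filter.atTop (nhds 0) :=
    tendsto_pow_atTop_nhds_zero_of_lt_one (by positivity)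
      ((div_lt_one (by positivity)).2 (lt_add_one _))
  filter_upwards [hc.eventually (gt_mem_nhds hδ)] with N hN
  rw [← realS_vtx, sd_pow_realS]
  refine lm_mem_supported (tsd_pow_small N (D := 1) (single_mem_supported R _ fun a b => ?_)) ?_
  · exact (Metric.dist_le_diam_of_mem (bounded_stdSimplex _) (vtx a).2 (vtx b).2).trans
      diam_stdSimplex_le
  · intro v hv
    obtain ⟨i, hi⟩ := h (v 0) (mem_univ _)
    refine ⟨i, ?_⟩
    rintro _ ⟨x, rfl⟩
    refine hi ?_
    rw [Metric.mem_ball]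
    refine (dist_aff_le v (v 0) (fun a => hv a 0) x).trans_lt ?_
    rwa [mul_one]

/-- Iterated subdivision makes a chain small with respect to an open cover. -/
theorem exists_sd_pow_small {ι : Type*} (U : ι → Set X) (hU : ∀ i, IsOpen (U i)) {k : ℕ}
    {z : Ch R X (k + 1)} (hz : z ∈ CIn R (⋃ i, U i) (k + 1)) :
    ∃ N, (sd R X (k + 1) ^ N) z ∈ supported R R {τ : C(Sx (k + 1), X) | ∃ i, range τ ⊆ U i} := by
  have := (Filter.eventually_all_finset z.support).2 fun σ hσ =>
    eventually_sd_pow_single (R := R) U hU σ (hz hσ)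
  obtain ⟨N, hN⟩ := this.exists
  exact ⟨N, mem_of_support hN⟩

theorem exists_sd_pow_split {A B : Set X} (hA : IsOpen A) (hB : IsOpen B) {k : ℕ}
    {z : Ch R X (k + 1)} (hz : z ∈ CIn R (A ∪ B) (k + 1)) :
    ∃ N, ∃ a ∈ CIn R A (k + 1), ∃ b ∈ CIn R B (k + 1), (sd R X (k + 1) ^ N) z = a + b := by
  obtain ⟨N, hN⟩ := exists_sd_pow_small (fun b : Bool => cond b A B)
    (fun b => by cases b <;> assumption) (z := z) (by rwa [← union_eq_iUnion])
  have : {τ : C(Sx (k + 1), X) | ∃ i : Bool, range τ ⊆ cond i A B} =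
      {τ : C(Sx (k + 1), X) | range τ ⊆ A} ∪ {τ : C(Sx (k + 1), X) | range τ ⊆ B} := by
    ext τ
    simp [or_comm]
  rw [this, supported_union, Submodule.mem_sup] at hN
  obtain ⟨a, ha, b, hb, h⟩ := hN
  exact ⟨N, a, ha, b, hb, h.symm⟩

/-- Splitting a chain along an open cover by two sets, when its boundary is already split. -/
theorem exists_split {A B : Set X} (hA : IsOpen A) (hB : IsOpen B) {k : ℕ}
    {e : Ch R X (k + 1)} (he : e ∈ CIn R (A ∪ B) (k + 1)) {a b : Ch R X k} (ha : a ∈ CIn R A k)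
    (hb : b ∈ CIn R B k) (hab : bd R X k e = a + b) :
    ∃ u ∈ CIn R (A ∪ B) (k + 2), ∃ eA ∈ CIn R A (k + 1), ∃ eB ∈ CIn R B (k + 1),
      e = bd R X (k + 1) u + eA + eB := by
  obtain ⟨N, a', ha', b', hb', h⟩ := exists_sd_pow_split hA hB he
  refine ⟨shN R X (k + 1) N e, shN_mem_CIn N he, a' + shN R X k N a,
    add_mem ha' (shN_mem_CIn N ha), b' + shN R X k N b, add_mem hb' (shN_mem_CIn N hb), ?_⟩
  rw [bd_shN, h, hab, map_add]
  abel

end Pool.Agent.Shared.H72Sing
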