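import Mathlib

/-!
Combinatorial chains on tuples: boundary, cones, subdivision and homotopies by cones.
-/

namespace Pool.Agent.Shared.H72Sing

open Finsupp

variable {R : Type*} [CommRing R]

/-- Linear map on free modules induced by a map of bases. -/
noncomputable abbrev lm (R : Type*) [CommRing R] {A B : Type*} (f : A → B) :
    (A →₀ R) →ₗ[R] (B →₀ R) := Finsupp.lmapDomain R R f

@[simp] theorem lm_single {A B : Type*} (f : A → B) (a : A) (r : R) :
    lm R f (single a r) = single (f a) r := by simp [lm]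

theorem lm_lm {A B C : Type*} (f : A → B) (g : B → C) (z : A →₀ R) :
    lm R g (lm R f z) = lm R (g ∘ f) z := by
  simp [lm, mapDomain_comp]

theorem lm_congr {A B : Type*} {f g : A → B} {z : A →₀ R} (h : ∀ a ∈ z.support, f a = g a) :
    lm R f z = lm R g z := by
  simp only [lm, lmapDomain_apply]
  exact mapDomain_congr h

theorem lm_id {A : Type*} (z : A →₀ R) : lm R id z = z := by simp [lm]

/-- Two linear maps out of a free module agree on an element if they agree on the basis
elements of its support. -/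
theorem eq_of_support {A M : Type*} [AddCommGroup M] [Module R M] {f g : (A →₀ R) →ₗ[R] M}
    {z : A →₀ R} (h : ∀ a ∈ z.support, f (single a 1) = g (single a 1)) : f z = g z := by
  rw [← Finsupp.sum_single z, Finsupp.sum, map_sum, map_sum]
  refine Finset.sum_congr rfl fun a ha => ?_
  rw [← Finsupp.smul_single_one, map_smul, map_smul, h a ha]

theorem mem_of_support {A M : Type*} [AddCommGroup M] [Module R M] {f : (A →₀ R) →ₗ[R] M}
    {z : A →₀ R} {N : Submodule R M} (h : ∀ a ∈ z.support, f (single a 1) ∈ N) : f z ∈ N := by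
  rw [← Finsupp.sum_single z, Finsupp.sum, map_sum]
  refine N.sum_mem fun a ha => ?_
  rw [← Finsupp.smul_single_one, map_smul]
  exact N.smul_mem _ (h a ha)

theorem mem_of_supported {A M : Type*} [AddCommGroup M] [Module R M] {f : (A →₀ R) →ₗ[R] M}
    {z : A →₀ R} {s : Set A} (hz : z ∈ supported R R s) {N : Submodule R M}
    (h : ∀ a ∈ s, f (single a 1) ∈ N) : f z ∈ N :=
  mem_of_support fun a ha => h a (hz ha)

theorem lm_mem_supported {A B : Type*} {f : A → B} {z : A →₀ R} {s : Set A} {t : Set B}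
    (hz : z ∈ supported R R s) (h : ∀ a ∈ s, f a ∈ t) : lm R f z ∈ supported R R t :=
  mem_of_supported hz fun a ha => by
    rw [lm_single]; exact single_mem_supported R _ (h a ha)

/-- Alternating sum of face maps. -/
noncomputable def altBd (R : Type*) [CommRing R] {A B : Type*} {k : ℕ} (d : Fin k → A → B) :
    (A →₀ R) →ₗ[R] (B →₀ R) :=
  ∑ i : Fin k, (-1 : R) ^ (i : ℕ) • lm R (d i)

theorem altBd_apply {A B : Type*} {k : ℕ} (d : Fin k → A → B) (z : A →₀ R) :
    altBd R d z = ∑ i : Fin k, (-1 : R) ^ (i : ℕ) • lm R (d i) z := by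
  simp [altBd, LinearMap.sum_apply]

theorem altBd_single {A B : Type*} {k : ℕ} (d : Fin k → A → B) (a : A) (r : R) :
    altBd R d (single a r) = ∑ i : Fin k, (-1 : R) ^ (i : ℕ) • single (d i a) r := by
  simp only [altBd_apply, lm_single]

theorem altBd_altBd {A B C : Type*} {k : ℕ} (d : Fin (k + 2) → A → B) (d' : Fin (k + 1) → B → C)
    (h : ∀ i j a, d' (j.predAbove i) (d (i.succAbove j) a) = d' j (d i a)) (z : A →₀ R) :
    altBd R d' (altBd R d z) = 0 := by
  rw [altBd_apply d z, map_sum]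
  simp only [map_smul]
  simp only [altBd_apply d', Finset.smul_sum, lm_lm, smul_smul, ← pow_add]
  rw [← Finset.sum_product' (f := fun (i : Fin (k + 2)) (j : Fin (k + 1)) =>
    (-1 : R) ^ ((i : ℕ) + (j : ℕ)) • lm R (d' j ∘ d i) z)]
  refine Finset.sum_ninvolution (fun p => (p.1.succAbove p.2, p.2.predAbove p.1)) ?_ ?_ ?_ ?_
  · rintro ⟨i, j⟩
    have : d' (j.predAbove i) ∘ d (i.succAbove j) = d' j ∘ d i := funext (h i j)
    simp only [this, Fin.neg_one_pow_succAbove_add_predAbove, neg_smul, add_neg_cancel]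
  · rintro ⟨i, j⟩ _ hij
    exact Fin.succAbove_ne i j (congrArg Prod.fst hij)
  · intro a; simp
  · rintro ⟨i, j⟩
    simp [Fin.succAbove_succAbove_predAbove, Fin.predAbove_predAbove_succAbove]

theorem lm_altBd {A B A' B' : Type*} {k : ℕ} (d : Fin k → A → B) (d' : Fin k → A' → B')
    (f : A → A') (g : B → B') (h : ∀ i a, g (d i a) = d' i (f a)) (z : A →₀ R) :
    lm R g (altBd R d z) = altBd R d' (lm R f z) := by
  simp only [altBd_apply, map_sum, map_smul, lm_lm]
  refine Finset.sum_congr rfl fun i _ => ?_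
  have : g ∘ d i = d' i ∘ f := funext (h i)
  rw [this]

theorem altBd_mem_supported {A B : Type*} {k : ℕ} (d : Fin k → A → B) {s : Set A} {t : Set B}
    (h : ∀ i, ∀ a ∈ s, d i a ∈ t) {z : A →₀ R} (hz : z ∈ supported R R s) :
    altBd R d z ∈ supported R R t := by
  rw [altBd_apply]
  exact Submodule.sum_mem _ fun i _ => Submodule.smul_mem _ _ (lm_mem_supported hz (h i))

/-- Chains of `k`-tuples of points. -/
abbrev TCh (R : Type*) [CommRing R] (Y : Type*) (k : ℕ) := (Fin k → Y) →₀ R

variable {Y Y' Z Z' : Type*}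

/-- Boundary of tuple chains. -/
noncomputable def tbd (R : Type*) [CommRing R] (Y : Type*) (k : ℕ) :
    TCh R Y (k + 1) →ₗ[R] TCh R Y k :=
  altBd R fun (i : Fin (k + 1)) (v : Fin (k + 1) → Y) => v ∘ i.succAbove

/-- Push-forward of tuple chains. -/
noncomputable def tmap (R : Type*) [CommRing R] (f : Y → Y') (k : ℕ) :
    TCh R Y k →ₗ[R] TCh R Y' k := lm R fun v => f ∘ v

/-- Cone on tuple chains. -/
noncomputable def tcone (R : Type*) [CommRing R] (b : Y) (k : ℕ) :
    TCh R Y k →ₗ[R] TCh R Y (k + 1) := lm R fun v => Fin.cons b v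

theorem tbd_tbd (k : ℕ) (z : TCh R Y (k + 2)) : tbd R Y k (tbd R Y (k + 1) z) = 0 := by
  refine altBd_altBd _ _ (fun i j v => ?_) z
  funext x
  simp [Fin.succAbove_succAbove_succAbove_predAbove]

theorem tmap_tbd (f : Y → Y') (k : ℕ) (z : TCh R Y (k + 1)) :
    tmap R f k (tbd R Y k z) = tbd R Y' k (tmap R f (k + 1) z) := by
  unfold tmap tbd
  exact lm_altBd _ _ (fun v : Fin (k + 1) → Y => f ∘ v) (fun v : Fin k → Y => f ∘ v)
    (fun _ _ => rfl) z

theorem tmap_tcone (f : Y → Y') (b : Y) (k : ℕ) (z : TCh R Y k) :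
    tmap R f (k + 1) (tcone R b k z) = tcone R (f b) k (tmap R f k z) := by
  simp only [tmap, tcone, lm_lm]
  congr 2
  funext v x
  refine Fin.cases ?_ (fun x => ?_) x <;> simp

@[simp] theorem tmap_single (f : Y → Y') (k : ℕ) (v : Fin k → Y) (r : R) :
    tmap R f k (single v r) = single (f ∘ v) r := lm_single _ _ _

theorem tmap_tmap (f : Y → Y') (g : Y' → Z) (k : ℕ) (z : TCh R Y k) :
    tmap R g k (tmap R f k z) = tmap R (g ∘ f) k z := by
  simp only [tmap, lm_lm]; rfl

theorem tbd_single (k : ℕ) (v : Fin (k + 1) → Y) (r : R) :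
    tbd R Y k (single v r) = ∑ i : Fin (k + 1), (-1 : R) ^ (i : ℕ) • single (v ∘ i.succAbove) r :=
  altBd_single _ _ _

theorem tbd_tcone_zero (b : Y) (z : TCh R Y 0) : tbd R Y 0 (tcone R b 0 z) = z := by
  rw [tbd, altBd_apply]
  simp only [tcone, lm_lm, Fin.sum_univ_succ, Finset.univ_eq_empty, Finset.sum_empty, add_zero,
    Fin.val_zero, pow_zero, one_smul]
  conv_rhs => rw [← lm_id z]
  congr 2

theorem tbd_tcone (b : Y) (k : ℕ) (z : TCh R Y (k + 1)) :
    tbd R Y (k + 1) (tcone R b (k + 1) z) = z - tcone R b k (tbd R Y k z) := by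
  rw [tbd, altBd_apply, Fin.sum_univ_succ, tbd, altBd_apply, map_sum, sub_eq_add_neg,
    ← Finset.sum_neg_distrib]
  congr 1
  · simp only [tcone, lm_lm, Fin.val_zero, pow_zero, one_smul]
    conv_rhs => rw [← lm_id z]
    congr 2
  · refine Finset.sum_congr rfl fun i _ => ?_
    simp only [tcone, lm_lm, Fin.val_succ, pow_succ, map_smul, mul_neg, mul_one, neg_smul]
    congr 4
    funext v x
    refine Fin.cases ?_ (fun x => ?_) x <;> simp

/-- Subdivision of tuple chains by coning with chosen centres. -/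
noncomputable def tsd (R : Type*) [CommRing R] (b : ∀ k, (Fin (k + 1) → Y) → Y) :
    ∀ k, TCh R Y k →ₗ[R] TCh R Y k
  | 0 => LinearMap.id
  | k + 1 => linearCombination R fun v => tcone R (b k v) k (tsd R b k (tbd R Y k (single v 1)))

theorem tsd_succ_single (b : ∀ k, (Fin (k + 1) → Y) → Y) (k : ℕ) (v : Fin (k + 1) → Y) :
    tsd R b (k + 1) (single v 1) = tcone R (b k v) k (tsd R b k (tbd R Y k (single v 1))) := by
  simp [tsd]

theorem tbd_tsd (b : ∀ k, (Fin (k + 1) → Y) → Y) :
    ∀ k (z : TCh R Y (k + 1)), tbd R Y k (tsd R b (k + 1) z) = tsd R b k (tbd R Y k z)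
  | 0, z => by
    refine eq_of_support (f := (tbd R Y 0).comp (tsd R b 1)) (g := (tsd R b 0).comp (tbd R Y 0))
      fun v _ => ?_
    simp only [LinearMap.comp_apply, tsd_succ_single, tbd_tcone_zero]
  | k + 1, z => by
    refine eq_of_support (f := (tbd R Y (k + 1)).comp (tsd R b (k + 2)))
      (g := (tsd R b (k + 1)).comp (tbd R Y (k + 1))) fun v _ => ?_
    simp only [LinearMap.comp_apply]
    rw [tsd_succ_single, tbd_tcone, tbd_tsd b k, tbd_tbd, map_zero, map_zero, sub_zero]

theorem tmap_tsd (b : ∀ k, (Fin (k + 1) → Y) → Y) (b' : ∀ k, (Fin (k + 1) → Y') → Y')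
    (f : Y → Y') (h : ∀ k v, f (b k v) = b' k (f ∘ v)) :
    ∀ k (z : TCh R Y k), tmap R f k (tsd R b k z) = tsd R b' k (tmap R f k z)
  | 0, z => rfl
  | k + 1, z => by
    refine eq_of_support (f := (tmap R f (k + 1)).comp (tsd R b (k + 1)))
      (g := (tsd R b' (k + 1)).comp (tmap R f (k + 1))) fun v _ => ?_
    simp only [LinearMap.comp_apply]
    rw [tsd_succ_single, tmap_tcone, tmap_tsd b b' f h k, tmap_tbd, tmap_single, tsd_succ_single, h]

/-- Null-homotopy of a chain map by coning. -/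
noncomputable def thom (R : Type*) [CommRing R] (F : ∀ k, TCh R Y k →ₗ[R] TCh R Z k)
    (b : ∀ k, (Fin (k + 1) → Y) → Z) : ∀ k, TCh R Y k →ₗ[R] TCh R Z (k + 1)
  | 0 => 0
  | k + 1 => linearCombination R fun v =>
      tcone R (b k v) (k + 1) (F (k + 1) (single v 1) - thom R F b k (tbd R Y k (single v 1)))

theorem thom_succ_single (F : ∀ k, TCh R Y k →ₗ[R] TCh R Z k)
    (b : ∀ k, (Fin (k + 1) → Y) → Z) (k : ℕ) (v : Fin (k + 1) → Y) :
    thom R F b (k + 1) (single v 1) =
      tcone R (b k v) (k + 1) (F (k + 1) (single v 1) - thom R F b k (tbd R Y k (single v 1))) := by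
  simp [thom]

theorem tbd_thom (F : ∀ k, TCh R Y k →ₗ[R] TCh R Z k) (b : ∀ k, (Fin (k + 1) → Y) → Z)
    (hF0 : F 0 = 0) (hF : ∀ k z, tbd R Z k (F (k + 1) z) = F k (tbd R Y k z)) :
    ∀ k (z : TCh R Y (k + 1)),
      tbd R Z (k + 1) (thom R F b (k + 1) z) = F (k + 1) z - thom R F b k (tbd R Y k z)
  | 0, z => by
    refine eq_of_support (f := (tbd R Z 1).comp (thom R F b 1))
      (g := F 1 - (thom R F b 0).comp (tbd R Y 0)) fun v _ => ?_
    simp only [LinearMap.comp_apply, LinearMap.sub_apply]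
    rw [thom_succ_single, tbd_tcone, map_sub, hF, hF0]
    simp [thom]
  | k + 1, z => by
    refine eq_of_support (f := (tbd R Z (k + 2)).comp (thom R F b (k + 2)))
      (g := F (k + 2) - (thom R F b (k + 1)).comp (tbd R Y (k + 1))) fun v _ => ?_
    simp only [LinearMap.comp_apply, LinearMap.sub_apply]
    rw [thom_succ_single, tbd_tcone, map_sub, hF, tbd_thom F b hF0 hF k, tbd_tbd]
    simp

theorem tmap_thom (F : ∀ k, TCh R Y k →ₗ[R] TCh R Z k) (b : ∀ k, (Fin (k + 1) → Y) → Z)
    (F' : ∀ k, TCh R Y' k →ₗ[R] TCh R Z' k) (b' : ∀ k, (Fin (k + 1) → Y') → Z')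
    (f : Y → Y') (g : Z → Z') (hF : ∀ k z, tmap R g k (F k z) = F' k (tmap R f k z))
    (h : ∀ k v, g (b k v) = b' k (f ∘ v)) :
    ∀ k (z : TCh R Y k), tmap R g (k + 1) (thom R F b k z) = thom R F' b' k (tmap R f k z)
  | 0, z => by simp [thom]
  | k + 1, z => by
    refine eq_of_support (f := (tmap R g (k + 2)).comp (thom R F b (k + 1)))
      (g := (thom R F' b' (k + 1)).comp (tmap R f (k + 1))) fun v _ => ?_
    simp only [LinearMap.comp_apply]
    rw [thom_succ_single, tmap_tcone, map_sub, hF, tmap_thom F b F' b' f g hF h k, tmap_tbd,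
      tmap_single, thom_succ_single, h]

end Pool.Agent.Shared.H72Sing
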