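import Pool.Agent.Shared.H72Sing.FundClass

/-!
The universal covering of a path-connected, locally simply connected space.
-/

namespace Pool.Agent.Shared.H72Sing

open Set Topology

variable {M : Type*} [TopologicalSpace M]

/-- Every point has arbitrarily small simply connected open neighbourhoods. -/
def LocSC (M : Type*) [TopologicalSpace M] : Prop :=
  ∀ x : M, ∀ N ∈ 𝓝 x, ∃ W ⊆ N, IsOpen W ∧ x ∈ W ∧ IsSimplyConnected W

theorem LocEuc.locSC {d : ℕ} (h : LocEuc d M) : LocSC M := by
  intro p N hN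
  obtain ⟨e, he, x, rfl⟩ := h p
  obtain ⟨r, hr, h'⟩ := Metric.mem_nhds_iff.1 (e.continuous.continuousAt.preimage_mem_nhds hN)
  refine ⟨e '' Metric.ball x r, image_subset_iff.2 h', he.isOpenMap _ Metric.isOpen_ball,
    mem_image_of_mem e (Metric.mem_ball_self hr), ?_⟩
  rw [he.isEmbedding.isSimplyConnected_image]
  have := (convex_ball x r).contractibleSpace ⟨x, Metric.mem_ball_self hr⟩
  exact SimplyConnectedSpace.ofContractible _

theorem homotopic_of_isSimplyConnected {W : Set M} (hW : IsSimplyConnected W) {x y : M}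
    (γ γ' : Path x y) (h : range γ ⊆ W) (h' : range γ' ⊆ W) : γ.Homotopic γ' := by
  have := hW.simplyConnectedSpace
  have hx : x ∈ W := h γ.source_mem_range
  have hy : y ∈ W := h γ.target_mem_range
  let l : ∀ δ : Path x y, range δ ⊆ W → Path (⟨x, hx⟩ : W) ⟨y, hy⟩ := fun δ hδ =>
    ⟨⟨fun t => ⟨δ t, hδ ⟨t, rfl⟩⟩, Continuous.subtype_mk δ.continuous _⟩,
      Subtype.ext δ.source, Subtype.ext δ.target⟩
  exact (SimplyConnectedSpace.paths_homotopic (l γ h) (l γ' h')).map
    ⟨Subtype.val, continuous_subtype_val⟩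

/-- The universal covering space: homotopy classes of paths from the base point. -/
structure UC (m : M) where
  pt : M
  cls : Path.Homotopic.Quotient m pt

namespace UC

open Path.Homotopic.Quotient

variable {m : M}

/-- Extension of a class by a path. -/
noncomputable def ext' (a : UC m) {y : M} (δ : Path a.pt y) : UC m :=
  ⟨y, a.cls.trans (.mk δ)⟩

theorem ext'_ext' (a : UC m) {y z : M} (δ : Path a.pt y) (δ' : Path y z) :
    (a.ext' δ).ext' δ' = a.ext' (δ.trans δ') := by
  simp only [ext', mk_trans, trans_assoc]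

theorem ext'_refl (a : UC m) : a.ext' (Path.refl _) = a := by
  simp only [ext', mk_refl, trans_refl]

theorem ext'_congr (a : UC m) {y : M} {δ δ' : Path a.pt y} (h : δ.Homotopic δ') :
    a.ext' δ = a.ext' δ' := by
  simp only [ext', eq.2 h]

instance : TopologicalSpace (UC m) where
  IsOpen U := ∀ a ∈ U, ∃ N ∈ 𝓝 a.pt, ∀ y (δ : Path a.pt y), range δ ⊆ N → a.ext' δ ∈ U
  isOpen_univ a _ := ⟨univ, Filter.univ_mem, fun _ _ _ => mem_univ _⟩
  isOpen_inter U V hU hV a ha := by
    obtain ⟨N, hN, h⟩ := hU a ha.1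
    obtain ⟨N', hN', h'⟩ := hV a ha.2
    exact ⟨N ∩ N', Filter.inter_mem hN hN', fun y δ hδ =>
      ⟨h y δ (hδ.trans inter_subset_left), h' y δ (hδ.trans inter_subset_right)⟩⟩
  isOpen_sUnion S hS a := by
    rintro ⟨U, hU, ha⟩
    obtain ⟨N, hN, h⟩ := hS U hU a ha
    exact ⟨N, hN, fun y δ hδ => ⟨U, hU, h y δ hδ⟩⟩

theorem isOpen_iff {U : Set (UC m)} : IsOpen U ↔
    ∀ a ∈ U, ∃ N ∈ 𝓝 a.pt, ∀ y (δ : Path a.pt y), range δ ⊆ N → a.ext' δ ∈ U := Iff.rfl

theorem continuous_pt : Continuous (pt : UC m → M) :=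
  continuous_def.2 fun _ hV _ ha => ⟨_, hV.mem_nhds ha, fun _ δ hδ => hδ δ.target_mem_range⟩

theorem isOpenMap_pt (h : LocSC M) : IsOpenMap (pt : UC m → M) := by
  intro U hU
  rw [isOpen_iff_mem_nhds]
  rintro _ ⟨a, ha, rfl⟩
  obtain ⟨N, hN, h'⟩ := hU a ha
  obtain ⟨W, hWN, hW, haW, hW'⟩ := h _ N hN
  refine Filter.mem_of_superset (hW.mem_nhds haW) fun y hy => ?_
  obtain ⟨δ, hδ⟩ := hW'.isPathConnected.joinedIn _ haW _ hy
  exact ⟨_, h' y δ ((range_subset_iff.2 hδ).trans hWN), rfl⟩

/-- A sheet over an open set. -/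
def sheet (a : UC m) (W : Set M) : Set (UC m) :=
  {b | ∃ (y : M) (δ : Path a.pt y), range δ ⊆ W ∧ b = a.ext' δ}

theorem isOpen_sheet (a : UC m) {W : Set M} (hW : IsOpen W) : IsOpen (a.sheet W) := by
  rintro _ ⟨y, δ, hδ, rfl⟩
  refine ⟨W, hW.mem_nhds (hδ δ.target_mem_range), fun z δ' hδ' => ⟨z, δ.trans δ', ?_,
    ext'_ext' _ _ _⟩⟩
  rw [Path.trans_range]
  exact union_subset hδ hδ'

theorem mem_sheet (a : UC m) {W : Set M} (ha : a.pt ∈ W) : a ∈ a.sheet W :=
  ⟨_, Path.refl _, by simpa using ha, a.ext'_refl.symm⟩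

noncomputable instance : MulAction (FundamentalGroup M m) (UC m) where
  smul g a := ⟨a.pt, (FundamentalGroup.toPath g⁻¹).trans a.cls⟩
  one_smul a := by
    change (⟨a.pt, (FundamentalGroup.toPath (1 : FundamentalGroup M m)⁻¹).trans a.cls⟩ : UC m) = a
    rw [inv_one]
    exact congrArg (UC.mk a.pt) (refl_trans _)
  mul_smul g h a := by
    change (⟨a.pt, (FundamentalGroup.toPath (g * h)⁻¹).trans a.cls⟩ : UC m) =
      ⟨a.pt, (FundamentalGroup.toPath g⁻¹).trans ((FundamentalGroup.toPath h⁻¹).trans a.cls)⟩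
    rw [mul_inv_rev]
    exact congrArg (UC.mk a.pt) (trans_assoc _ _ _)

theorem smul_def (g : FundamentalGroup M m) (a : UC m) :
    g • a = ⟨a.pt, (FundamentalGroup.toPath g⁻¹).trans a.cls⟩ := rfl

theorem smul_ext' (g : FundamentalGroup M m) (a : UC m) {y : M} (δ : Path a.pt y) :
    g • a.ext' δ = (g • a).ext' δ := congrArg (UC.mk y) (trans_assoc _ _ _).symm

instance : ContinuousConstSMul (FundamentalGroup M m) (UC m) where
  continuous_const_smul g := continuous_def.2 fun U hU a ha => by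
    obtain ⟨N, hN, h⟩ := hU _ ha
    exact ⟨N, hN, fun y δ hδ => by
      change g • a.ext' δ ∈ U
      rw [smul_ext']
      exact h y δ hδ⟩

theorem mk_inj {x : M} {c c' : Path.Homotopic.Quotient m x} (h : UC.mk x c = UC.mk x c') :
    c = c' := by
  cases h; rfl

theorem isQuotientCoveringMap [PathConnectedSpace M] (h : LocSC M) :
    IsQuotientCoveringMap (pt : UC m → M) (FundamentalGroup M m) where
  __ := (isOpenMap_pt h).isQuotientMap continuous_pt fun x =>
    ⟨⟨x, .mk (PathConnectedSpace.somePath m x)⟩, rfl⟩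
  continuous_const_smul := continuous_const_smul
  apply_eq_iff_mem_orbit := by
    rintro ⟨x, c⟩ ⟨y, c'⟩
    constructor
    · rintro (rfl : x = y)
      refine ⟨(FundamentalGroup.fromPath (c.trans c'.symm))⁻¹, ?_⟩
      simp only [smul_def, inv_inv]
      exact congrArg (UC.mk x) (by simp)
    · rintro ⟨g, hg⟩
      exact (congrArg pt hg).symm
  disjoint a := by
    obtain ⟨W, -, hW, haW, hW'⟩ := h a.pt univ Filter.univ_mem
    refine ⟨a.sheet W, (isOpen_sheet a hW).mem_nhds (a.mem_sheet haW), ?_⟩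
    rintro g ⟨_, ⟨_, ⟨y, δ, hδ, rfl⟩, rfl⟩, y', δ', hδ', e⟩
    obtain rfl : y = y' := congrArg pt e
    rw [← a.ext'_congr (homotopic_of_isSimplyConnected hW' δ δ' hδ hδ')] at e
    have e' := congrArg (fun c => c.trans (a.ext' δ).cls.symm) (mk_inj e)
    simp only [trans_assoc] at e'
    rw [← inv_eq_one]
    have h1 : (a.ext' δ).cls.trans (a.ext' δ).cls.symm = .refl m := trans_symm _
    change _ = (a.ext' δ).cls.trans (a.ext' δ).cls.symm at e'
    rw [h1, trans_refl] at e'
    exact e'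

theorem continuous_lift (a : UC m) {y : M} (γ : Path a.pt y) :
    Continuous fun t => a.ext' ((γ.subpath 0 t).cast γ.source.symm rfl) := by
  rw [continuous_def]
  intro U hU
  rw [isOpen_iff_mem_nhds]
  intro t₀ ht₀
  obtain ⟨N, hN, h⟩ := hU _ ht₀
  obtain ⟨r, hr, h'⟩ := Metric.mem_nhds_iff.1 (γ.continuous.continuousAt.preimage_mem_nhds hN)
  filter_upwards [Metric.ball_mem_nhds t₀ hr] with t ht
  have := h _ (γ.subpath t₀ t) (by
    refine (Path.range_subpath γ t₀ t).subset.trans ?_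
    rw [image_subset_iff]
    refine Subset.trans (fun s hs => ?_) h'
    have : (s : ℝ) ∈ Metric.ball (t₀ : ℝ) r :=
      (convex_ball (t₀ : ℝ) r).ordConnected.uIcc_subset (Metric.mem_ball_self hr) ht hs
    exact this)
  rw [ext'_ext'] at this
  change a.ext' _ ∈ U
  rw [← a.ext'_congr (δ := ((γ.subpath 0 t₀).cast γ.source.symm rfl).trans (γ.subpath t₀ t))]
  · exact this
  · exact Path.Homotopic.pathCast ⟨Path.Homotopy.subpathTransSubpath γ 0 t₀ t⟩ γ.source.symm rfl

theorem ext'_eq_of_eq (a : UC m) {y y' : M} (δ : Path a.pt y) (δ' : Path a.pt y') (h : y = y')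
    (h' : ∀ t, δ t = δ' t) : a.ext' δ = a.ext' δ' := by
  subst h
  obtain rfl : δ = δ' := Path.ext (funext h')
  rfl

/-- The canonical lift of a path. -/
noncomputable def liftPath (a : UC m) {y : M} (γ : Path a.pt y) : Path a (a.ext' γ) where
  toFun t := a.ext' ((γ.subpath 0 t).cast γ.source.symm rfl)
  continuous_toFun := continuous_lift a γ
  source' := (a.ext'_eq_of_eq _ (Path.refl _) γ.source fun t => by simp).trans a.ext'_refl
  target' := a.ext'_eq_of_eq _ _ γ.target fun t => by simp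

theorem simplyConnectedSpace [PathConnectedSpace M] (h : LocSC M) :
    SimplyConnectedSpace (UC m) := by
  have cov := (isQuotientCoveringMap (m := m) h).isCoveringMap
  rw [simply_connected_iff_loops_nullhomotopic]
  constructor
  · have key : ∀ b : UC m, Joined (⟨m, .refl m⟩ : UC m) b := by
      rintro ⟨x, c⟩
      obtain ⟨γ, rfl⟩ := mk_surjective c
      have := (⟨m, .refl m⟩ : UC m).liftPath γ
      simp only [ext', refl_trans] at this
      exact ⟨this⟩
    exact ⟨⟨⟨m, .refl m⟩⟩, fun a b => (key a).symm.trans (key b)⟩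
  · intro a Γ
    have h1 := cov.eq_of_comp_eq Γ.continuous (a.liftPath (Γ.map continuous_pt)).continuous
      (funext fun _ => rfl) 0 (by simp)
    have h2 : a = a.ext' (Γ.map continuous_pt) := by simpa using congrFun h1 1
    have h3 := congrArg (fun c => a.cls.symm.trans c) (mk_inj h2)
    simp only [← trans_assoc, symm_trans, refl_trans] at h3
    refine exact (cov.injective_path_homotopic_map a a ?_)
    exact h3.symm.trans (by simp [← mk_refl, ← mk_map]; rfl)

end UC

end Pool.Agent.Shared.H72Sing
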